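import Mathlib

/-!
Generalized quadrangles, elations, translation generalized quadrangles and their kernels,
following the conventions of the problem file.
-/

set_option autoImplicit false

namespace Pool.Agent.Lib.MP_0f105f_co

/-- A point-line incidence geometry (point and line sets may be infinite). -/
structure Geometry where
  /-- the points -/
  Point : Type
  /-- the lines -/
  Line : Type
  /-- the incidence relation -/
  inc : Point → Line → Prop

namespace Geometry

/-- Two points are collinear if some line is incident with both. -/
def Collinear (S : Geometry) (p q : S.Point) : Prop :=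
  ∃ L : S.Line, S.inc p L ∧ S.inc q L

/-- The axioms of a (thick) generalized quadrangle. -/
structure IsGQ (S : Geometry) : Prop where
  /-- two distinct points lie on at most one common line -/
  atMostOneLine : ∀ p q : S.Point, p ≠ q → ∀ L M : S.Line,
    S.inc p L → S.inc q L → S.inc p M → S.inc q M → L = M
  /-- every line has at least three points -/
  threePoints : ∀ L : S.Line, ∃ p q r : S.Point,
    p ≠ q ∧ p ≠ r ∧ q ≠ r ∧ S.inc p L ∧ S.inc q L ∧ S.inc r L
  /-- every point lies on at least three lines -/
  threeLines : ∀ p : S.Point, ∃ L M N : S.Line,
    L ≠ M ∧ L ≠ N ∧ M ≠ N ∧ S.inc p L ∧ S.inc p M ∧ S.inc p N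
  /-- for a point `p` and a line `L` not through `p` exactly one point of `L` is collinear
  with `p` -/
  projection : ∀ (p : S.Point) (L : S.Line), ¬ S.inc p L →
    ∃! q : S.Point, S.inc q L ∧ S.Collinear p q

/-- The pairs (permutation of the points, permutation of the lines) preserving incidence in both
directions, as a subgroup of the product of the two symmetric groups. -/
def autSubgroup (S : Geometry) : Subgroup (Equiv.Perm S.Point × Equiv.Perm S.Line) where
  carrier := {g | ∀ (p : S.Point) (L : S.Line), S.inc (g.1 p) (g.2 L) ↔ S.inc p L}
  one_mem' := fun _ _ => Iff.rfl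
  mul_mem' := fun {g h} hg hh p L => (hg (h.1 p) (h.2 L)).trans (hh p L)
  inv_mem' := fun {g} hg p L => by
    have h := hg (g.1⁻¹ p) (g.2⁻¹ L)
    simp only [Equiv.Perm.coe_inv, Equiv.apply_symm_apply] at h
    exact h.symm

/-- The automorphisms of `S`. -/
def Aut (S : Geometry) : Type := S.autSubgroup

/-- The automorphism group of `S` (composition, as a subgroup of the product of the symmetric
groups). -/
instance instGroupAut (S : Geometry) : Group S.Aut := Subgroup.toGroup S.autSubgroup

/-- The image of a point under an automorphism. -/
def onPoint (S : Geometry) (g : S.Aut) (p : S.Point) : S.Point := g.1.1 p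

/-- The image of a line under an automorphism. -/
def onLine (S : Geometry) (g : S.Aut) (L : S.Line) : S.Line := g.1.2 L

/-- An elation about `x`: the identity, or an automorphism fixing every line through `x` and
fixing no point that is not collinear with `x`. -/
def IsElation (S : Geometry) (x : S.Point) (g : S.Aut) : Prop :=
  g = 1 ∨ ((∀ L : S.Line, S.inc x L → S.onLine g L = L) ∧
    ∀ p : S.Point, ¬ S.Collinear x p → S.onPoint g p ≠ p)

/-- `(S^x, G)` is a translation generalized quadrangle: `S` is a generalized quadrangle and `G` is
an abelian group of elations about `x` acting sharply transitively on the points that are not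
collinear with `x`. -/
structure IsTGQ (S : Geometry) (x : S.Point) (G : Subgroup S.Aut) : Prop where
  /-- `S` is a generalized quadrangle -/
  gq : S.IsGQ
  /-- `G` consists of elations about `x` -/
  elation : ∀ g ∈ G, S.IsElation x g
  /-- `G` is sharply transitive on the points not collinear with `x` -/
  sharp : ∀ p q : S.Point, ¬ S.Collinear x p → ¬ S.Collinear x q →
    ∃! g : S.Aut, g ∈ G ∧ S.onPoint g p = q
  /-- `G` is abelian -/
  comm : ∀ g ∈ G, ∀ h ∈ G, g * h = h * g

/-- The stabiliser in `G` of a line. -/
def lineStab (S : Geometry) (G : Subgroup S.Aut) (M : S.Line) : Set G :=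
  {g | S.onLine g M = M}

/-- The stabiliser in `G` of a point. -/
def pointStab (S : Geometry) (G : Subgroup S.Aut) (z : S.Point) : Set G :=
  {g | S.onPoint g z = z}

end Geometry

/-- The endomorphism `α` maps the subset `A` into itself. -/
def MapsInto {H : Type} [Group H] (α : H →* H) (A : Set H) : Prop :=
  ∀ g ∈ A, α g ∈ A

/-- The kernel with respect to the base point `y` (not collinear with `x`): the endomorphisms `α`
of `G` such that, for every line `L` through `x`, with `M` the line through `y` meeting `L` and
`z` the common point of `L` and `M`, the map `α` sends the stabiliser `A_L` of `M` into itself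
and the stabiliser `A_L^*` of `z` into itself. -/
def Geometry.kernel (S : Geometry) (x y : S.Point) (G : Subgroup S.Aut) : Set (G →* G) :=
  {α | ∀ (L M : S.Line) (z : S.Point), S.inc x L → S.inc y M → S.inc z L → S.inc z M →
    MapsInto α (S.lineStab G M) ∧ MapsInto α (S.pointStab G z)}

/-- The set `k` of endomorphisms of `H` contains a nonzero element (one that is not the trivial
endomorphism `g ↦ 1`) that has no two-sided inverse in `k`. -/
def HasNonzeroNonunit {H : Type} [Group H] (k : Set (H →* H)) : Prop :=
  ∃ α ∈ k, (∃ g : H, α g ≠ 1) ∧
    ¬ ∃ β ∈ k, α.comp β = MonoidHom.id H ∧ β.comp α = MonoidHom.id H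

end Pool.Agent.Lib.MP_0f105f_co
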