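import Mathlib
import Pool.Agent.Lib.MP_0f105f_co.Defs

/-!
The coset geometry of a Kantor family in an abelian group, in coordinates:
`A_L^*` is the kernel of `π L` and `A_L` is the common kernel of `π L` and `ψ L`.
-/

set_option autoImplicit false

namespace Pool.Agent.Lib.MP_0f105f_co

/-- points of the coset geometry -/
inductive Pt (V R I : Type) : Type
  | aff (g : V) : Pt V R I
  | st (L : I) (a : R) : Pt V R I
  | inf : Pt V R I

/-- lines of the coset geometry -/
inductive Ln (R K I : Type) : Type
  | cos (L : I) (a : R) (c : K) : Ln R K I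
  | br (L : I) : Ln R K I

variable {V R K I : Type} [AddCommGroup V] [AddCommGroup R] [AddCommGroup K]

/-- incidence -/
def incid (π : I → V →+ R) (ψ : I → V →+ K) : Pt V R I → Ln R K I → Prop
  | .aff g, .cos L a c => π L g = a ∧ ψ L g = c
  | .aff _, .br _ => False
  | .st L a, .cos M b _ => L = M ∧ a = b
  | .st L _, .br M => L = M
  | .inf, .cos _ _ _ => False
  | .inf, .br _ => True

/-- the coset geometry -/
def geom (π : I → V →+ R) (ψ : I → V →+ K) : Geometry where
  Point := Pt V R I
  Line := Ln R K I
  inc := incid π ψ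

/-- the Kantor family axioms in coordinates -/
structure Kantor (π : I → V →+ R) (ψ : I → V →+ K) : Prop where
  surj : ∀ L M, L ≠ M → ∀ a b c, ∃ g, π L g = a ∧ π M g = b ∧ ψ M g = c
  inj : ∀ L M, L ≠ M → ∀ g, π L g = 0 → π M g = 0 → ψ M g = 0 → g = 0
  cover : ∀ L g, π L g ≠ 0 → ∃ M h, π L h = 0 ∧ ψ L h = 0 ∧ π M h = π M g ∧ ψ M h = ψ M g
  three : ∀ L M N, L ≠ M → L ≠ N → M ≠ N → ∀ a b, π L a = 0 → ψ L a = 0 → π M b = 0 →
    ψ M b = 0 → π N (a + b) = 0 → ψ N (a + b) = 0 → a = 0
  threeI : ∃ L M N : I, L ≠ M ∧ L ≠ N ∧ M ≠ N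
  ntR : ∃ a : R, a ≠ 0
  ntK : ∃ c : K, c ≠ 0

variable {π : I → V →+ R} {ψ : I → V →+ K}

theorem Kantor.other (h : Kantor π ψ) (L : I) : ∃ M, M ≠ L := by
  obtain ⟨A, B, -, hAB, -, -⟩ := h.threeI
  by_cases hA : A = L
  · exact ⟨B, fun hB => hAB (hA.trans hB.symm)⟩
  · exact ⟨A, hA⟩

theorem Kantor.inj' (h : Kantor π ψ) {L M : I} (hLM : L ≠ M) {g g' : V} (h1 : π L g = π L g')
    (h2 : π M g = π M g') (h3 : ψ M g = ψ M g') : g = g' := by
  apply sub_eq_zero.mp
  apply h.inj L M hLM <;> simp [*]

theorem col_aff_aff (g g' : V) :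
    (geom π ψ).Collinear (.aff g) (.aff g') ↔ ∃ M, π M g = π M g' ∧ ψ M g = ψ M g' := by
  constructor
  · rintro ⟨L, h1, h2⟩
    cases L with
    | cos M a c => exact ⟨M, h1.1.trans h2.1.symm, h1.2.trans h2.2.symm⟩
    | br M => exact h1.elim
  · rintro ⟨M, h1, h2⟩
    exact ⟨.cos M (π M g) (ψ M g), ⟨rfl, rfl⟩, ⟨h1.symm, h2.symm⟩⟩

theorem col_aff_st (g : V) (L : I) (a : R) :
    (geom π ψ).Collinear (.aff g) (.st L a) ↔ π L g = a := by
  constructor
  · rintro ⟨M, h1, h2⟩
    cases M with
    | cos M b c =>
      obtain ⟨rfl, rfl⟩ := h2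
      exact h1.1
    | br M => exact h1.elim
  · intro h
    exact ⟨.cos L a (ψ L g), ⟨h, rfl⟩, ⟨rfl, rfl⟩⟩

theorem col_symm {S : Geometry} {p q : S.Point} : S.Collinear p q ↔ S.Collinear q p :=
  ⟨fun ⟨L, h1, h2⟩ => ⟨L, h2, h1⟩, fun ⟨L, h1, h2⟩ => ⟨L, h2, h1⟩⟩

theorem not_col_inf_aff (g : V) : ¬ (geom π ψ).Collinear .inf (.aff g) := by
  rintro ⟨M, h1, h2⟩
  cases M with
  | cos M b c => exact h1
  | br M => exact h2

theorem col_inf_st (L : I) (a : R) : (geom π ψ).Collinear .inf (.st L a) :=
  ⟨.br L, trivial, rfl⟩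

theorem col_st_st (L M : I) (a b : R) :
    (geom π ψ).Collinear (.st L a) (.st M b) ↔ L = M := by
  constructor
  · rintro ⟨N, h1, h2⟩
    cases N with
    | cos N b c => exact h1.1.trans h2.1.symm
    | br N => exact Eq.trans h1 (Eq.symm h2)
  · rintro rfl
    exact ⟨.br L, rfl, rfl⟩

theorem Kantor.atMostOne (h : Kantor π ψ) (p q : Pt V R I) (hpq : p ≠ q) (L M : Ln R K I)
    (h1 : incid π ψ p L) (h2 : incid π ψ q L) (h3 : incid π ψ p M) (h4 : incid π ψ q M) :
    L = M := by
  cases L with
  | cos L a c =>
    cases M with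
    | cos M b e =>
      cases p with
      | aff g =>
        cases q with
        | aff g' =>
          by_cases hLM : L = M
          · subst hLM
            rw [← h1.1, ← h1.2, ← h3.1, ← h3.2]
          · exfalso
            apply hpq
            rw [h.inj' hLM (h1.1.trans h2.1.symm) (h3.1.trans h4.1.symm) (h3.2.trans h4.2.symm)]
        | st N a' =>
          obtain ⟨rfl, rfl⟩ := h2
          obtain ⟨rfl, rfl⟩ := h4
          rw [← h1.2, ← h3.2]
        | inf => exact h2.elim
      | st N a' =>
        obtain ⟨rfl, rfl⟩ := h1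
        obtain ⟨rfl, rfl⟩ := h3
        cases q with
        | aff g' => rw [← h2.2, ← h4.2]
        | st N' a'' =>
          obtain ⟨rfl, rfl⟩ := h2
          exact absurd rfl hpq
        | inf => exact h2.elim
      | inf => exact h1.elim
    | br M =>
      cases p with
      | aff g => exact h3.elim
      | st N a' =>
        cases q with
        | aff g' => exact h4.elim
        | st N' a'' =>
          obtain ⟨rfl, rfl⟩ := h1
          obtain ⟨rfl, rfl⟩ := h2
          exact absurd rfl hpq
        | inf => exact h2.elim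
      | inf => exact h1.elim
  | br L =>
    cases M with
    | cos M b e =>
      cases p with
      | aff g => exact h1.elim
      | st N a' =>
        cases q with
        | aff g' => exact h2.elim
        | st N' a'' =>
          obtain ⟨rfl, rfl⟩ := h3
          obtain ⟨rfl, rfl⟩ := h4
          exact absurd rfl hpq
        | inf => exact h4.elim
      | inf => exact h3.elim
    | br M =>
      cases p with
      | aff g => exact h1.elim
      | st N a' =>
        have e1 : N = L := h1
        have e2 : N = M := h3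
        rw [← e1, ← e2]
      | inf =>
        cases q with
        | aff g' => exact h2.elim
        | st N a' =>
          have e1 : N = L := h2
          have e2 : N = M := h4
          rw [← e1, ← e2]
        | inf => exact absurd rfl hpq

theorem Kantor.proj (h : Kantor π ψ) (p : Pt V R I) (L : Ln R K I) (hn : ¬ incid π ψ p L) :
    ∃! q : Pt V R I, incid π ψ q L ∧ (geom π ψ).Collinear p q := by
  cases p with
  | aff g =>
    cases L with
    | cos L a c =>
      by_cases ha : π L g = a
      · refine ⟨.st L a, ⟨⟨rfl, rfl⟩, (col_aff_st _ _ _).mpr ha⟩, ?_⟩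
        rintro q ⟨hq1, hq2⟩
        cases q with
        | aff g' =>
          exfalso
          obtain ⟨M, hM1, hM2⟩ := (col_aff_aff _ _).mp hq2
          by_cases hLM : L = M
          · subst hLM
            exact hn ⟨ha, hM2.trans hq1.2⟩
          · have := h.inj' hLM (ha.trans hq1.1.symm) hM1 hM2
            subst this
            exact hn hq1
        | st N a' =>
          obtain ⟨rfl, rfl⟩ := hq1
          rfl
        | inf => exact hq1.elim
      · obtain ⟨M0, hM0⟩ := h.other L
        obtain ⟨g0, -, hg1, hg2⟩ := h.surj M0 L hM0 0 a c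
        obtain ⟨M, k, hk1, hk2, hk3, hk4⟩ := h.cover L (g - g0) (by
          rw [map_sub, hg1]; exact sub_ne_zero.mpr ha)
        have hLM : L ≠ M := by
          rintro rfl
          rw [hk1, map_sub, hg1] at hk3
          exact ha (sub_eq_zero.mp hk3.symm)
        refine ⟨.aff (g0 + k), ⟨⟨by simp [hg1, hk1], by simp [hg2, hk2]⟩,
          (col_aff_aff _ _).mpr ⟨M, by simp [hk3], by simp [hk4]⟩⟩, ?_⟩
        rintro q ⟨hq1, hq2⟩
        cases q with
        | aff g' =>
          obtain ⟨N, hN1, hN2⟩ := (col_aff_aff _ _).mp hq2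
          have hLN : L ≠ N := by
            rintro rfl
            exact ha (hN1.trans hq1.1)
          by_cases hMN : M = N
          · subst hMN
            congr 1
            apply h.inj' hLM
            · simp [hq1.1, hg1, hk1]
            · simp [hk3, hN1]
            · simp [hk4, hN2]
          · congr 1
            have := h.three L M N hLM hLN hMN (g0 + k - g') (g - (g0 + k))
              (by simp [hq1.1, hg1, hk1]) (by simp [hq1.2, hg2, hk2]) (by simp [hk3])
              (by simp [hk4]) (by simp [hN1]) (by simp [hN2])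
            exact (sub_eq_zero.mp this).symm
        | st N a' =>
          obtain ⟨rfl, rfl⟩ := hq1
          exact absurd ((col_aff_st _ _ _).mp hq2) ha
        | inf => exact hq1.elim
    | br L =>
      refine ⟨.st L (π L g), ⟨rfl, (col_aff_st _ _ _).mpr rfl⟩, ?_⟩
      rintro q ⟨hq1, hq2⟩
      cases q with
      | aff g' => exact hq1.elim
      | st N a' =>
        have e1 : N = L := hq1
        subst e1
        rw [(col_aff_st _ _ _).mp hq2]
      | inf => exact absurd (col_symm.mp hq2) (not_col_inf_aff g)
  | st N a =>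
    cases L with
    | cos L b c =>
      by_cases hNL : N = L
      · subst hNL
        have hab : a ≠ b := fun hab => hn ⟨rfl, hab⟩
        refine ⟨.st N b, ⟨⟨rfl, rfl⟩, (col_st_st _ _ _ _).mpr rfl⟩, ?_⟩
        rintro q ⟨hq1, hq2⟩
        cases q with
        | aff g' =>
          exact absurd (((col_aff_st _ _ _).mp (col_symm.mp hq2)).symm.trans hq1.1) hab
        | st N' a' =>
          obtain ⟨rfl, rfl⟩ := hq1
          rfl
        | inf => exact hq1.elim
      · obtain ⟨g, hg1, hg2, hg3⟩ := h.surj N L hNL a b c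
        refine ⟨.aff g, ⟨⟨hg2, hg3⟩, col_symm.mp ((col_aff_st _ _ _).mpr hg1)⟩, ?_⟩
        rintro q ⟨hq1, hq2⟩
        cases q with
        | aff g' =>
          congr 1
          exact h.inj' hNL (((col_aff_st _ _ _).mp (col_symm.mp hq2)).trans hg1.symm)
            (hq1.1.trans hg2.symm) (hq1.2.trans hg3.symm)
        | st N' a' =>
          exact absurd (((col_st_st _ _ _ _).mp hq2).trans hq1.1) hNL
        | inf => exact hq1.elim
    | br L =>
      refine ⟨.inf, ⟨trivial, col_symm.mp (col_inf_st _ _)⟩, ?_⟩
      rintro q ⟨hq1, hq2⟩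
      cases q with
      | aff g' => exact hq1.elim
      | st N' a' =>
        have e1 : N' = L := hq1
        exact absurd (((col_st_st _ _ _ _).mp hq2).trans e1) hn
      | inf => rfl
  | inf =>
    cases L with
    | cos L a c =>
      refine ⟨.st L a, ⟨⟨rfl, rfl⟩, col_inf_st _ _⟩, ?_⟩
      rintro q ⟨hq1, hq2⟩
      cases q with
      | aff g' => exact absurd hq2 (not_col_inf_aff g')
      | st N a' =>
        obtain ⟨rfl, rfl⟩ := hq1
        rfl
      | inf => exact hq1.elim
    | br L => exact absurd trivial hn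

theorem Kantor.isGQ (h : Kantor π ψ) : (geom π ψ).IsGQ where
  atMostOneLine := h.atMostOne
  threePoints := by
    obtain ⟨r, hr⟩ := h.ntR
    intro L
    cases L with
    | cos L a c =>
      obtain ⟨M, hM⟩ := h.other L
      obtain ⟨g, hg1, hg2, hg3⟩ := h.surj M L hM 0 a c
      obtain ⟨g', hg1', hg2', hg3'⟩ := h.surj M L hM r a c
      refine ⟨.st L a, .aff g, .aff g', fun e => (by cases e), fun e => (by cases e), ?_, ⟨rfl, rfl⟩,
        ⟨hg2, hg3⟩, ⟨hg2', hg3'⟩⟩
      intro e
      injection e with e
      rw [e, hg1'] at hg1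
      exact hr hg1
    | br L =>
      refine ⟨.inf, .st L 0, .st L r, fun e => (by cases e), fun e => (by cases e), ?_, trivial,
        rfl, rfl⟩
      intro e
      injection e with _ e
      exact hr e.symm
  threeLines := by
    obtain ⟨A, B, C, hAB, hAC, hBC⟩ := h.threeI
    obtain ⟨c, hc⟩ := h.ntK
    intro p
    cases p with
    | aff g =>
      refine ⟨.cos A (π A g) (ψ A g), .cos B (π B g) (ψ B g), .cos C (π C g) (ψ C g), ?_, ?_, ?_,
        ⟨rfl, rfl⟩, ⟨rfl, rfl⟩, ⟨rfl, rfl⟩⟩
      · intro e; injection e with e; exact hAB e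
      · intro e; injection e with e; exact hAC e
      · intro e; injection e with e; exact hBC e
    | st L a =>
      refine ⟨.br L, .cos L a 0, .cos L a c, fun e => (by cases e), fun e => (by cases e), ?_, rfl,
        ⟨rfl, rfl⟩, ⟨rfl, rfl⟩⟩
      intro e
      injection e with _ _ e
      exact hc e.symm
    | inf =>
      refine ⟨.br A, .br B, .br C, ?_, ?_, ?_, trivial, trivial, trivial⟩
      · intro e; injection e with e; exact hAB e
      · intro e; injection e with e; exact hAC e
      · intro e; injection e with e; exact hBC e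
  projection := h.proj

/-- translation of points -/
def trP (π : I → V →+ R) (t : V) : Pt V R I → Pt V R I
  | .aff g => .aff (g + t)
  | .st L a => .st L (a + π L t)
  | .inf => .inf

/-- translation of lines -/
def trL (π : I → V →+ R) (ψ : I → V →+ K) (t : V) : Ln R K I → Ln R K I
  | .cos L a c => .cos L (a + π L t) (c + ψ L t)
  | .br L => .br L

theorem trP_add (s t : V) (p : Pt V R I) : trP π (s + t) p = trP π s (trP π t p) := by
  cases p <;> simp [trP, add_assoc, add_comm s t]

theorem trP_zero (p : Pt V R I) : trP π 0 p = p := by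
  cases p <;> simp [trP]

theorem trL_add (s t : V) (L : Ln R K I) : trL π ψ (s + t) L = trL π ψ s (trL π ψ t L) := by
  cases L <;> simp [trL, add_assoc, add_comm (π _ s), add_comm (ψ _ s)]

theorem trL_zero (L : Ln R K I) : trL π ψ 0 L = L := by
  cases L <;> simp [trL]

theorem incid_tr (t : V) (p : Pt V R I) (L : Ln R K I) :
    incid π ψ (trP π t p) (trL π ψ t L) ↔ incid π ψ p L := by
  cases p <;> cases L <;> simp [incid, trP, trL]
  rintro rfl
  simp

/-- translation as a permutation of the points -/
def trPermP (π : I → V →+ R) (t : V) : Equiv.Perm (Pt V R I) :=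
  ⟨trP π t, trP π (-t), fun p => by rw [← trP_add, neg_add_cancel, trP_zero],
      fun p => by rw [← trP_add, add_neg_cancel, trP_zero]⟩

/-- translation as a permutation of the lines -/
def trPermL (π : I → V →+ R) (ψ : I → V →+ K) (t : V) : Equiv.Perm (Ln R K I) :=
  ⟨trL π ψ t, trL π ψ (-t), fun p => by rw [← trL_add, neg_add_cancel, trL_zero],
      fun p => by rw [← trL_add, add_neg_cancel, trL_zero]⟩

/-- translation as an automorphism -/
def trAut (π : I → V →+ R) (ψ : I → V →+ K) (t : V) : (geom π ψ).Aut :=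
  ⟨(trPermP π t, trPermL π ψ t), incid_tr t⟩

/-- the translation group as a homomorphic image of `V` -/
def trHom (π : I → V →+ R) (ψ : I → V →+ K) : Multiplicative V →* (geom π ψ).Aut :=
  MonoidHom.mk' (fun t => trAut π ψ t.toAdd) (fun s t => by
    apply Subtype.ext
    apply Prod.ext
    · exact Equiv.ext fun p => trP_add _ _ p
    · exact Equiv.ext fun p => trL_add _ _ p)

theorem onPoint_trHom (t : Multiplicative V) (p : Pt V R I) :
    (geom π ψ).onPoint (trHom π ψ t) p = trP π t.toAdd p := rfl

theorem onLine_trHom (t : Multiplicative V) (L : Ln R K I) :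
    (geom π ψ).onLine (trHom π ψ t) L = trL π ψ t.toAdd L := rfl

theorem trHom_injective : Function.Injective (trHom π ψ) := by
  intro s t hst
  have h1 : trP π s.toAdd (.aff 0 : Pt V R I) = trP π t.toAdd (.aff 0) := by
    rw [← onPoint_trHom (ψ := ψ), ← onPoint_trHom (ψ := ψ), hst]
  simp only [trP, zero_add, Pt.aff.injEq] at h1
  exact Multiplicative.toAdd.injective h1

theorem Kantor.aff_of_not_col (h : Kantor π ψ) (p : Pt V R I)
    (hp : ¬ (geom π ψ).Collinear .inf p) : ∃ g, p = .aff g := by
  cases p with
  | aff g => exact ⟨g, rfl⟩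
  | st L a => exact absurd (col_inf_st L a) hp
  | inf =>
    obtain ⟨A, -⟩ := h.threeI
    exact absurd ⟨.br A, trivial, trivial⟩ hp

theorem Kantor.isTGQ (h : Kantor π ψ) : (geom π ψ).IsTGQ .inf (trHom π ψ).range where
  gq := h.isGQ
  elation := by
    rintro g ⟨t, rfl⟩
    by_cases ht : t = 1
    · left
      simp [ht]
    · right
      constructor
      · intro L hL
        cases L with
        | cos L a c => exact hL.elim
        | br L => rfl
      · intro p hp
        obtain ⟨g, rfl⟩ := h.aff_of_not_col p hp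
        intro e
        have e' : (Pt.aff (g + t.toAdd) : Pt V R I) = .aff g := e
        injection e' with e'
        apply ht
        apply Multiplicative.toAdd.injective
        simpa using e'
  sharp := by
    intro p q hp hq
    obtain ⟨g, rfl⟩ := h.aff_of_not_col p hp
    obtain ⟨g', rfl⟩ := h.aff_of_not_col q hq
    refine ⟨trHom π ψ (Multiplicative.ofAdd (g' - g)), ⟨⟨_, rfl⟩, ?_⟩, ?_⟩
    · show (Pt.aff (g + (g' - g)) : Pt V R I) = .aff g'
      simp
    · rintro _ ⟨⟨t, rfl⟩, e⟩
      have e' : (Pt.aff (g + t.toAdd) : Pt V R I) = .aff g' := e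
      injection e' with e'
      congr 1
      apply Multiplicative.toAdd.injective
      simp [← e']
  comm := by
    rintro _ ⟨s, rfl⟩ _ ⟨t, rfl⟩
    rw [← map_mul, ← map_mul, mul_comm]

/-- the isomorphism of `V` with the translation group -/
noncomputable def trEquiv (π : I → V →+ R) (ψ : I → V →+ K) :
    Multiplicative V ≃* (trHom π ψ).range :=
  MonoidHom.ofInjective trHom_injective

/-- an endomorphism of `V`, transported to the translation group -/
noncomputable def trEnd (π : I → V →+ R) (ψ : I → V →+ K) (f : V →+ V) :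
    (trHom π ψ).range →* (trHom π ψ).range :=
  (trEquiv π ψ).toMonoidHom.comp
    ((AddMonoidHom.toMultiplicative f).comp (trEquiv π ψ).symm.toMonoidHom)

theorem trEnd_apply (f : V →+ V) (t : V) :
    trEnd π ψ f (trEquiv π ψ (Multiplicative.ofAdd t)) =
      trEquiv π ψ (Multiplicative.ofAdd (f t)) := by
  simp [trEnd]

theorem trEnd_mem_kernel (f : V →+ V) (h1 : ∀ L t, π L t = 0 → π L (f t) = 0)
    (h2 : ∀ L t, π L t = 0 → ψ L t = 0 → ψ L (f t) = 0) :
    trEnd π ψ f ∈ (geom π ψ).kernel .inf (.aff 0) (trHom π ψ).range := by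
  intro L M z hL hM hzL hzM
  cases L with
  | cos L a c => exact hL.elim
  | br L =>
    cases M with
    | br M => exact hM.elim
    | cos M a c =>
      cases z with
      | aff g => exact hzL.elim
      | inf => exact hzM.elim
      | st N b =>
        constructor
        · intro g hg
          obtain ⟨t, rfl⟩ := (trEquiv π ψ).surjective g
          have hg' : (Ln.cos M (a + π M t.toAdd) (c + ψ M t.toAdd) : Ln R K I) = .cos M a c := hg
          injection hg' with _ e1 e2
          have e1' : π M t.toAdd = 0 := by simpa using e1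
          have e2' : ψ M t.toAdd = 0 := by simpa using e2
          have := trEnd_apply (π := π) (ψ := ψ) f t.toAdd
          rw [ofAdd_toAdd] at this
          rw [this]
          show (Ln.cos M (a + π M (f t.toAdd)) (c + ψ M (f t.toAdd)) : Ln R K I) = .cos M a c
          rw [h1 _ _ e1', h2 _ _ e1' e2', add_zero, add_zero]
        · intro g hg
          obtain ⟨t, rfl⟩ := (trEquiv π ψ).surjective g
          have hg' : (Pt.st N (b + π N t.toAdd) : Pt V R I) = .st N b := hg
          injection hg' with _ e1
          have e1' : π N t.toAdd = 0 := by simpa using e1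
          have := trEnd_apply (π := π) (ψ := ψ) f t.toAdd
          rw [ofAdd_toAdd] at this
          rw [this]
          show (Pt.st N (b + π N (f t.toAdd)) : Pt V R I) = .st N b
          rw [h1 _ _ e1', add_zero]

theorem trEnd_ne_one (f : V →+ V) (t : V) (ht : f t ≠ 0) : ∃ g, trEnd π ψ f g ≠ 1 := by
  refine ⟨trEquiv π ψ (Multiplicative.ofAdd t), ?_⟩
  rw [trEnd_apply]
  intro e
  apply ht
  have := (trEquiv π ψ).injective (e.trans (map_one _).symm)
  exact Multiplicative.ofAdd.injective this

theorem trEnd_not_surj (f : V →+ V) (hf : ¬ Function.Surjective f) :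
    ¬ Function.Surjective (trEnd π ψ f) := by
  intro hs
  apply hf
  intro v
  obtain ⟨g, hg⟩ := hs (trEquiv π ψ (Multiplicative.ofAdd v))
  obtain ⟨t, rfl⟩ := (trEquiv π ψ).surjective g
  have := trEnd_apply (π := π) (ψ := ψ) f t.toAdd
  rw [ofAdd_toAdd] at this
  rw [this] at hg
  exact ⟨t.toAdd, Multiplicative.ofAdd.injective ((trEquiv π ψ).injective hg)⟩

end Pool.Agent.Lib.MP_0f105f_co
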