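import Mathlib

/-!
A greedy construction: for a countable field `K` over an infinite field `k` there is an injective
map `σ : K → k` whose graph, together with two points at infinity, is a hyperoval-like set:
no three points of the graph are collinear, and through each point of the graph every
line of nonzero slope carries a second point of the graph.
-/

set_option autoImplicit false

namespace Pool.Agent.Lib.MP_0f105f_co

variable {k K : Type} [Field k] [Field K] [Algebra k K]

/-- determinant of three points of `K × k` -/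
def det3 (p q r : K × k) : K :=
  (q.1 - p.1) * (algebraMap k K r.2 - algebraMap k K p.2) -
    (r.1 - p.1) * (algebraMap k K q.2 - algebraMap k K p.2)

/-- finite arcs -/
structure Good (s : Set (K × k)) : Prop where
  fin : s.Finite
  fst : ∀ p ∈ s, ∀ q ∈ s, p.1 = q.1 → p = q
  snd : ∀ p ∈ s, ∀ q ∈ s, p.2 = q.2 → p = q
  arc : ∀ p ∈ s, ∀ q ∈ s, ∀ r ∈ s, p ≠ q → p ≠ r → q ≠ r → det3 p q r ≠ 0

theorem finite_sol (a b : K) (h : a ≠ 0 ∨ b ≠ 0) :
    {c : k | a * algebraMap k K c = b}.Finite := by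
  apply Set.Subsingleton.finite
  intro c hc c' hc'
  simp only [Set.mem_setOf_eq] at hc hc'
  by_cases ha : a = 0
  · rcases h with h | h
    · exact absurd ha h
    · rw [ha, zero_mul] at hc; exact absurd hc.symm h
  · apply (algebraMap k K).injective
    exact mul_left_cancel₀ ha (hc.trans hc'.symm)

theorem extend [Infinite k] {s : Set (K × k)} (hs : Good s) (u m : K)
    (h1 : ∀ p ∈ s, ∀ q ∈ s, p.1 = u + m * algebraMap k K p.2 →
      q.1 = u + m * algebraMap k K q.2 → p = q)
    (h2 : m = 0 → ∀ p ∈ s, p.1 ≠ u) :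
    ∃ c : k, (∀ p ∈ s, p.2 ≠ c) ∧ Good (insert (u + m * algebraMap k K c, c) s) := by
  have f1 : (Prod.snd '' s).Finite := hs.fin.image _
  have f2 : (⋃ p ∈ s, {c : k | m * algebraMap k K c = p.1 - u}).Finite := by
    apply hs.fin.biUnion
    intro p hp
    apply finite_sol
    by_cases hm : m = 0
    · right; exact sub_ne_zero.mpr (h2 hm p hp)
    · left; exact hm
  have f3 : (⋃ p ∈ s, ⋃ q ∈ s \ {p},
      {c : k | det3 p q (u + m * algebraMap k K c, c) = 0}).Finite := by
    apply hs.fin.biUnion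
    intro p hp
    apply (hs.fin.subset Set.diff_subset).biUnion
    intro q hq
    have hqp : q ≠ p := hq.2
    have hq' : q ∈ s := hq.1
    have key := finite_sol (k := k)
      ((q.1 - p.1) - m * (algebraMap k K q.2 - algebraMap k K p.2))
      ((q.1 - p.1) * algebraMap k K p.2 + (u - p.1) * (algebraMap k K q.2 - algebraMap k K p.2))
      (by
        by_contra hcon
        push Not at hcon
        obtain ⟨ha, hb⟩ := hcon
        have hne : algebraMap k K q.2 - algebraMap k K p.2 ≠ 0 := by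
          intro h0
          have : q.2 = p.2 := (algebraMap k K).injective (sub_eq_zero.mp h0)
          exact hqp (hs.snd q hq' p hp this)
        have hp1 : p.1 = u + m * algebraMap k K p.2 := by
          apply mul_left_cancel₀ hne
          linear_combination (algebraMap k K p.2) * ha - hb
        have hq1 : q.1 = u + m * algebraMap k K q.2 := by
          linear_combination ha + hp1
        exact hqp (h1 q hq' p hp hq1 hp1))
    apply key.subset
    intro c hc
    simp only [Set.mem_setOf_eq, det3] at hc ⊢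
    linear_combination hc
  obtain ⟨c, hc⟩ := ((f1.union f2).union f3).infinite_compl.nonempty
  simp only [Set.mem_compl_iff, Set.mem_union, not_or, Set.mem_image, Set.mem_iUnion,
    Set.mem_setOf_eq, not_exists, not_and, Set.mem_diff, Set.mem_singleton_iff] at hc
  obtain ⟨⟨c1, c2⟩, c3⟩ := hc
  have c3' : ∀ p ∈ s, ∀ q ∈ s, p ≠ q → det3 p q (u + m * algebraMap k K c, c) ≠ 0 :=
    fun p hp q hq hpq => c3 p hp q ⟨hq, fun h => hpq h.symm⟩
  have c2' : ∀ p ∈ s, p.1 ≠ u + m * algebraMap k K c := by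
    intro p hp h
    apply c2 p hp
    linear_combination -h
  refine ⟨c, fun p hp => c1 p hp, hs.fin.insert _, ?_, ?_, ?_⟩
  · rintro p (rfl | hp) q (rfl | hq) h
    · rfl
    · exact absurd h.symm (c2' q hq)
    · exact absurd h (c2' p hp)
    · exact hs.fst p hp q hq h
  · rintro p (rfl | hp) q (rfl | hq) h
    · rfl
    · exact absurd h.symm (c1 q hq)
    · exact absurd h (c1 p hp)
    · exact hs.snd p hp q hq h
  · rintro p (rfl | hp) q (rfl | hq) r (rfl | hr) hpq hpr hqr
    · exact absurd rfl hpq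
    · exact absurd rfl hpq
    · exact absurd rfl hpr
    · intro h
      apply c3' q hq r hr hqr
      simp only [det3] at h ⊢
      linear_combination h
    · exact absurd rfl hqr
    · intro h
      apply c3' p hp r hr hpr
      simp only [det3] at h ⊢
      linear_combination -h
    · exact c3' p hp q hq hpq
    · exact hs.arc p hp q hq r hr hpq hpr hqr

theorem extend_dom [Infinite k] {s : Set (K × k)} (hs : Good s) (d : K) :
    ∃ t : Set (K × k), Good t ∧ s ⊆ t ∧ ∃ c, (d, c) ∈ t := by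
  by_cases h : ∃ c, (d, c) ∈ s
  · exact ⟨s, hs, subset_rfl, h⟩
  · push Not at h
    have h' : ∀ p ∈ s, p.1 ≠ d := by
      intro p hp hd
      apply h p.2
      rw [← hd]; exact hp
    obtain ⟨c, -, hc⟩ := extend hs d 0
      (fun p hp q _ h1 _ => absurd (by simpa using h1) (h' p hp)) (fun _ => h')
    refine ⟨_, hc, Set.subset_insert _ _, c, ?_⟩
    simp

theorem extend_slope [Infinite k] {s : Set (K × k)} (hs : Good s) (d m : K) (hm : m ≠ 0) :
    ∃ t : Set (K × k), Good t ∧ s ⊆ t ∧ ∃ c, (d, c) ∈ t ∧ ∃ q ∈ t, q ≠ (d, c) ∧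
      q.1 - d = m * (algebraMap k K q.2 - algebraMap k K c) := by
  obtain ⟨t, ht, hst, c, hc⟩ := extend_dom hs d
  by_cases h : ∃ q ∈ t, q ≠ (d, c) ∧ q.1 - d = m * (algebraMap k K q.2 - algebraMap k K c)
  · exact ⟨t, ht, hst, c, hc, h⟩
  · push Not at h
    have h' : ∀ q ∈ t, q.1 = (d - m * algebraMap k K c) + m * algebraMap k K q.2 → q = (d, c) := by
      intro q hq h1
      by_contra hne
      apply h q hq hne
      linear_combination h1
    obtain ⟨c', hc1, hc2⟩ := extend ht (d - m * algebraMap k K c) m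
      (fun p hp q hq h1 h2 => (h' p hp h1).trans (h' q hq h2).symm) (fun h0 => absurd h0 hm)
    refine ⟨_, hc2, hst.trans (Set.subset_insert _ _), c, Set.mem_insert_of_mem _ hc, _,
      Set.mem_insert _ _, ?_, ?_⟩
    · intro h0
      exact hc1 (d, c) hc (congrArg Prod.snd h0).symm
    · simp only
      ring

theorem exists_oval (k K : Type) [Field k] [Field K] [Algebra k K] [Infinite k] [Countable K] :
    ∃ σ : K → k, Function.Injective σ ∧
      (∀ d e f : K, d ≠ e → d ≠ f → e ≠ f →
        (e - d) * (algebraMap k K (σ f) - algebraMap k K (σ d)) ≠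
          (f - d) * (algebraMap k K (σ e) - algebraMap k K (σ d))) ∧
      ∀ d m : K, m ≠ 0 → ∃ e, e ≠ d ∧
        e - d = m * (algebraMap k K (σ e) - algebraMap k K (σ d)) := by
  classical
  let P := {s : Set (K × k) // Good s}
  let p0 : P := ⟨∅, Set.finite_empty, by simp, by simp, by simp⟩
  let D : K × K → Order.Cofinal P := fun i =>
    { carrier := {t | ∃ c, (i.1, c) ∈ t.1 ∧ (i.2 ≠ 0 → ∃ q ∈ t.1, q ≠ (i.1, c) ∧
        q.1 - i.1 = i.2 * (algebraMap k K q.2 - algebraMap k K c))}
      isCofinal := by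
        intro s
        by_cases hm : i.2 = 0
        · obtain ⟨t, ht, hst, c, hc⟩ := extend_dom s.2 i.1
          exact ⟨⟨t, ht⟩, ⟨c, hc, fun h => absurd hm h⟩, hst⟩
        · obtain ⟨t, ht, hst, c, hc, hq⟩ := extend_slope s.2 i.1 i.2 hm
          exact ⟨⟨t, ht⟩, ⟨c, hc, fun _ => hq⟩, hst⟩ }
  haveI : Encodable (K × K) := Encodable.ofCountable _
  let seq := Order.sequenceOfCofinals p0 D
  have mono : Monotone seq := Order.sequenceOfCofinals.monotone p0 D
  let U : Set (K × k) := {p | ∃ n, p ∈ (seq n).1}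
  have up : ∀ {p : K × k} {n N : ℕ}, n ≤ N → p ∈ (seq n).1 → p ∈ (seq N).1 :=
    fun h hp => mono h hp
  have hD : ∀ d m : K, ∃ c, (d, c) ∈ U ∧ (m ≠ 0 → ∃ q ∈ U, q ≠ (d, c) ∧
      q.1 - d = m * (algebraMap k K q.2 - algebraMap k K c)) := by
    intro d m
    obtain ⟨c, hc, hq⟩ := Order.sequenceOfCofinals.encode_mem p0 D (d, m)
    refine ⟨c, ⟨_, hc⟩, fun hm => ?_⟩
    obtain ⟨q, hq1, hq2⟩ := hq hm
    exact ⟨q, ⟨_, hq1⟩, hq2⟩
  have Ufst : ∀ p ∈ U, ∀ q ∈ U, p.1 = q.1 → p = q := by
    rintro p ⟨n, hn⟩ q ⟨n', hn'⟩ h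
    exact (seq (max n n')).2.fst p (up (le_max_left _ _) hn) q (up (le_max_right _ _) hn') h
  have Usnd : ∀ p ∈ U, ∀ q ∈ U, p.2 = q.2 → p = q := by
    rintro p ⟨n, hn⟩ q ⟨n', hn'⟩ h
    exact (seq (max n n')).2.snd p (up (le_max_left _ _) hn) q (up (le_max_right _ _) hn') h
  have Uarc : ∀ p ∈ U, ∀ q ∈ U, ∀ r ∈ U, p ≠ q → p ≠ r → q ≠ r → det3 p q r ≠ 0 := by
    rintro p ⟨n, hn⟩ q ⟨n', hn'⟩ r ⟨n'', hn''⟩
    exact (seq (n + n' + n'')).2.arc p (up (by omega) hn) q (up (by omega) hn') r
      (up (by omega) hn'')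
  choose σ hσ using fun d => (hD d 0).imp fun c hc => hc.1
  have hU : ∀ q ∈ U, q = (q.1, σ q.1) := fun q hq => Ufst q hq _ (hσ q.1) rfl
  refine ⟨σ, ?_, ?_, ?_⟩
  · intro d e h
    exact congrArg Prod.fst (Usnd _ (hσ d) _ (hσ e) h)
  · intro d e f hde hdf hef h
    apply Uarc _ (hσ d) _ (hσ e) _ (hσ f) (fun h => hde (congrArg Prod.fst h))
      (fun h => hdf (congrArg Prod.fst h)) (fun h => hef (congrArg Prod.fst h))
    simp only [det3]
    linear_combination h
  · intro d m hm
    obtain ⟨c, hc, hq⟩ := hD d m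
    obtain ⟨q, hqU, hq1, hq2⟩ := hq hm
    have hcσ : c = σ d := congrArg Prod.snd (hU _ hc)
    have hq3 : q.2 = σ q.1 := congrArg Prod.snd (hU _ hqU)
    refine ⟨q.1, fun h => hq1 (Ufst _ hqU _ hc h), ?_⟩
    rw [← hq3, ← hcσ]
    exact hq2

end Pool.Agent.Lib.MP_0f105f_co
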