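import Mathlib
import Pool.Agent.Lib.MP_0f105f_co.Oval
import Pool.Agent.Lib.MP_0f105f_co.Kantor

/-!
The Kantor family on `R × R × K` attached to a map `σ : K → k` as in `exists_oval`,
for rings `k ⊆ R ⊆ K` with `k`, `K` fields.
-/

set_option autoImplicit false

namespace Pool.Agent.Lib.MP_0f105f_co

variable {k R K : Type} [Field k] [CommRing R] [Field K] [Algebra k R] [Algebra R K] [Algebra k K]

/-- the first coordinate maps -/
def piMap (R : Type) [CommRing R] [Algebra k R] (σ : K → k) : Option K → (R × R × K) →+ R
  | none => AddMonoidHom.mk' (fun v => v.1) (fun _ _ => rfl)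
  | some d => AddMonoidHom.mk' (fun v => v.2.1 - algebraMap k R (σ d) * v.1) (fun a b => by
      simp only [Prod.fst_add, Prod.snd_add]; ring)

/-- the second coordinate maps -/
def psiMap (R K : Type) [CommRing R] [Field K] [Algebra R K] : Option K → (R × R × K) →+ K
  | none => AddMonoidHom.mk' (fun v => v.2.2) (fun _ _ => rfl)
  | some d => AddMonoidHom.mk' (fun v => v.2.2 - d * algebraMap R K v.1) (fun a b => by
      simp only [Prod.fst_add, Prod.snd_add, map_add]; ring)

@[simp] theorem piMap_none (σ : K → k) (v : R × R × K) : piMap R σ none v = v.1 := rfl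
@[simp] theorem piMap_some (σ : K → k) (d : K) (v : R × R × K) :
    piMap R σ (some d) v = v.2.1 - algebraMap k R (σ d) * v.1 := rfl
@[simp] theorem psiMap_none (v : R × R × K) : psiMap R K none v = v.2.2 := rfl
@[simp] theorem psiMap_some (d : K) (v : R × R × K) :
    psiMap R K (some d) v = v.2.2 - d * algebraMap R K v.1 := rfl

theorem kantor_example [IsScalarTower k R K] (hinj : Function.Injective (algebraMap R K))
    (σ : K → k) (h1 : Function.Injective σ)
    (h2 : ∀ d e f : K, d ≠ e → d ≠ f → e ≠ f →
        (e - d) * (algebraMap k K (σ f) - algebraMap k K (σ d)) ≠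
          (f - d) * (algebraMap k K (σ e) - algebraMap k K (σ d)))
    (h3 : ∀ d m : K, m ≠ 0 → ∃ e, e ≠ d ∧
        e - d = m * (algebraMap k K (σ e) - algebraMap k K (σ d))) :
    Kantor (piMap R σ) (psiMap R K) := by
  have tower : ∀ c : k, algebraMap R K (algebraMap k R c) = algebraMap k K c :=
    fun c => (IsScalarTower.algebraMap_apply k R K c).symm
  have unit : ∀ d e : K, d ≠ e →
      (algebraMap k R (σ d) - algebraMap k R (σ e)) * algebraMap k R (σ d - σ e)⁻¹ = 1 := by
    intro d e hde
    rw [← map_sub, ← map_mul, mul_inv_cancel₀ (sub_ne_zero.mpr (h1.ne hde)), map_one]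
  have neK : ∀ d e : K, d ≠ e → algebraMap k K (σ d) - algebraMap k K (σ e) ≠ 0 :=
    fun d e hde h => hde (h1 ((algebraMap k K).injective (sub_eq_zero.mp h)))
  have zero : ∀ x : R, algebraMap R K x = 0 → x = 0 := fun x hx => hinj (by simpa using hx)
  have toK : ∀ {x y : R}, x = y → algebraMap R K x = algebraMap R K y := fun h => by rw [h]
  constructor
  · -- surj
    rintro (_ | d) (_ | e) hne a b c
    · exact absurd rfl hne
    · exact ⟨(a, b + algebraMap k R (σ e) * a, c + e * algebraMap R K a), by simp, by simp, by simp⟩
    · exact ⟨(b, a + algebraMap k R (σ d) * b, c), by simp, by simp, by simp⟩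
    · have hde : d ≠ e := fun h => hne (by rw [h])
      have u := unit e d hde.symm
      refine ⟨((a - b) * algebraMap k R (σ e - σ d)⁻¹,
        b + algebraMap k R (σ e) * ((a - b) * algebraMap k R (σ e - σ d)⁻¹),
        c + e * algebraMap R K ((a - b) * algebraMap k R (σ e - σ d)⁻¹)), ?_, by simp, by simp⟩
      simp only [piMap_some]
      linear_combination (a - b) * u
  · -- inj
    rintro (_ | d) (_ | e) hne ⟨x, y, z⟩ ha hb hc
    · exact absurd rfl hne
    · simp only [piMap_none, piMap_some, psiMap_some] at ha hb hc
      subst ha
      simp only [mul_zero, sub_zero, map_zero] at hb hc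
      rw [hb, hc]; rfl
    · simp only [piMap_none, piMap_some, psiMap_none] at ha hb hc
      subst hb
      simp only [mul_zero, sub_zero] at ha
      rw [ha, hc]; rfl
    · have hde : d ≠ e := fun h => hne (by rw [h])
      have u := unit e d hde.symm
      simp only [piMap_some, psiMap_some] at ha hb hc
      have hx : x = 0 := by
        linear_combination (algebraMap k R (σ e - σ d)⁻¹) * (ha - hb) - x * u
      subst hx
      simp only [mul_zero, sub_zero, map_zero] at hb hc
      rw [hb, hc]; rfl
  · -- cover
    rintro (_ | d) ⟨x, y, z⟩ hg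
    · have hx : algebraMap R K x ≠ 0 := fun h => hg (zero x h)
      refine ⟨some (z / algebraMap R K x),
        (0, y - algebraMap k R (σ (z / algebraMap R K x)) * x, 0), rfl, rfl, by simp, ?_⟩
      simp only [psiMap_some, map_zero, mul_zero, sub_zero]
      field_simp
      ring
    · simp only [piMap_some] at hg
      by_cases hz : z - d * algebraMap R K x = 0
      · refine ⟨none, (x, algebraMap k R (σ d) * x, d * algebraMap R K x), by simp, by simp,
          rfl, ?_⟩
        simp only [psiMap_none]
        linear_combination -hz
      · have hw : algebraMap R K (y - algebraMap k R (σ d) * x) ≠ 0 := fun h => hg (zero _ h)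
        obtain ⟨e, hed, he⟩ := h3 d ((z - d * algebraMap R K x) /
          algebraMap R K (y - algebraMap k R (σ d) * x)) (div_ne_zero hz hw)
        have u := unit e d hed
        set w := (y - algebraMap k R (σ d) * x) with hwdef
        set v := w * algebraMap k R (σ e - σ d)⁻¹ with hv
        have hv1 : (algebraMap k R (σ e) - algebraMap k R (σ d)) * v = w := by
          rw [hv]; linear_combination w * u
        have hv2 := toK hv1
        rw [map_mul, map_sub, tower, tower] at hv2
        refine ⟨some e, (x - v, algebraMap k R (σ d) * (x - v), d * algebraMap R K (x - v)),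
          by simp, by simp, ?_, ?_⟩
        · simp only [piMap_some]
          linear_combination hv1 + hwdef
        · simp only [psiMap_some, map_sub]
          have : (e - d) * algebraMap R K v = z - d * algebraMap R K x := by
            rw [he, mul_assoc, hv2, div_mul_cancel₀ _ hw]
          linear_combination this
  · -- three
    have fin : ∀ (d : K) (x y : R) (z : K), y - algebraMap k R (σ d) * x = 0 →
        z - d * algebraMap R K x = 0 → x = 0 → ((x, y, z) : R × R × K) = 0 := by
      intro d x y z a b c
      subst c
      simp only [mul_zero, sub_zero, map_zero] at a b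
      rw [a, b]; rfl
    rintro (_ | d) (_ | e) (_ | f) hLM hLN hMN ⟨x, y, z⟩ ⟨x', y', z'⟩ a1 a2 b1 b2 c1 c2
    · exact absurd rfl hLM
    · exact absurd rfl hLM
    · exact absurd rfl hLN
    · have hef : e ≠ f := fun h => hMN (by rw [h])
      simp only [piMap_none, piMap_some, psiMap_none, psiMap_some, Prod.mk_add_mk, map_add]
        at a1 a2 b1 b2 c1 c2
      subst a1 a2
      have hx' : x' = 0 := by
        apply zero
        apply mul_left_cancel₀ (sub_ne_zero.mpr hef)
        simp only [map_zero] at c2
        linear_combination c2 - b2
      subst hx'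
      have : y = 0 := by linear_combination c1 - b1
      rw [this]; rfl
    · exact absurd rfl hMN
    · have hdf : d ≠ f := fun h => hLN (by rw [h])
      simp only [piMap_none, piMap_some, psiMap_none, psiMap_some, Prod.mk_add_mk, map_add]
        at a1 a2 b1 b2 c1 c2
      subst b1 b2
      apply fin d x y z a1 a2
      apply zero
      apply mul_left_cancel₀ (sub_ne_zero.mpr hdf)
      simp only [map_zero] at c2
      linear_combination c2 - a2
    · have hde : d ≠ e := fun h => hLM (by rw [h])
      simp only [piMap_none, piMap_some, psiMap_none, psiMap_some, Prod.mk_add_mk]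
        at a1 a2 b1 b2 c1 c2
      apply fin d x y z a1 a2
      apply zero
      apply mul_left_cancel₀ (sub_ne_zero.mpr hde)
      have c1' := toK c1
      rw [map_add, map_zero] at c1'
      linear_combination c2 - a2 - b2 - e * c1'
    · have hde : d ≠ e := fun h => hLM (by rw [h])
      have hdf : d ≠ f := fun h => hLN (by rw [h])
      have hef : e ≠ f := fun h => hMN (by rw [h])
      simp only [piMap_some, psiMap_some, Prod.mk_add_mk, map_add] at a1 a2 b1 b2 c1 c2
      apply fin d x y z a1 a2
      apply zero
      have a1' := toK a1
      have b1' := toK b1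
      have c1' := toK c1
      simp only [map_sub, map_add, map_mul, map_zero, tower] at a1' b1' c1'
      have key := sub_ne_zero.mpr (h2 f d e hdf.symm hef.symm hde)
      apply mul_left_cancel₀ key
      linear_combination
        (algebraMap k K (σ e) - algebraMap k K (σ f)) * (c2 - a2 - b2) - (e - f) * (c1' - a1' - b1')
  · exact ⟨none, some 0, some 1, by simp, by simp, by simp⟩
  · refine ⟨1, fun h => ?_⟩
    have := toK h
    simp at this
  · exact ⟨1, one_ne_zero⟩

/-- multiplication by an element of `R` -/
def mulMap (K : Type) [Field K] [Algebra R K] (r : R) : (R × R × K) →+ (R × R × K) :=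
  AddMonoidHom.mk' (fun v => (r * v.1, r * v.2.1, algebraMap R K r * v.2.2)) (fun a b => by
    simp only [Prod.fst_add, Prod.snd_add, Prod.mk_add_mk, mul_add])

theorem mulMap_apply (r : R) (v : R × R × K) :
    mulMap K r v = (r * v.1, r * v.2.1, algebraMap R K r * v.2.2) := rfl

theorem piMap_mulMap (σ : K → k) (r : R) (L : Option K) (v : R × R × K) :
    piMap R σ L (mulMap K r v) = r * piMap R σ L v := by
  cases L
  · simp [mulMap_apply]
  · simp only [mulMap_apply, piMap_some]; ring

theorem psiMap_mulMap (r : R) (L : Option K) (v : R × R × K) :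
    psiMap R K L (mulMap K r v) = algebraMap R K r * psiMap R K L v := by
  cases L
  · simp [mulMap_apply]
  · simp only [mulMap_apply, psiMap_some, map_mul]; ring

end Pool.Agent.Lib.MP_0f105f_co
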