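import Mathlib

/-!
Abstract Kantor families in abelian groups and the endomorphisms preserving them.
-/

set_option autoImplicit false

namespace Pool.Agent.Lib.MP_0f105f_co

variable {H I : Type} [AddCommGroup H]

/-- an abstract Kantor family -/
structure AbsK (A As : I → AddSubgroup H) : Prop where
  le : ∀ L, A L ≤ As L
  k1 : ∀ L M N, L ≠ M → L ≠ N → M ≠ N → ∀ a ∈ A L, ∀ b ∈ A M, a + b ∈ A N → a + b = 0
  k2 : ∀ L M, L ≠ M → ∀ g ∈ As L, g ∈ A M → g = 0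
  k3 : ∀ L M, L ≠ M → ∀ g, ∃ b ∈ A M, g - b ∈ As L
  k4 : ∀ L g, g ∉ As L → ∃ M, M ≠ L ∧ ∃ a ∈ A L, g + a ∈ A M
  nt : ∀ L, ∃ a ∈ A L, a ≠ 0
  three : ∃ L M N : I, L ≠ M ∧ L ≠ N ∧ M ≠ N

/-- endomorphisms preserving the family -/
structure APres (A As : I → AddSubgroup H) (α : H →+ H) : Prop where
  h1 : ∀ L, ∀ g ∈ A L, α g ∈ A L
  h2 : ∀ L, ∀ g ∈ As L, α g ∈ As L

variable {A As : I → AddSubgroup H} {α : H →+ H}

theorem AbsK.third (K : AbsK A As) (L M : I) : ∃ N, N ≠ L ∧ N ≠ M := by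
  obtain ⟨a, b, c, hab, hac, hbc⟩ := K.three
  by_contra h
  push Not at h
  by_cases ha : a = L
  · have hb := h b (fun e => hab (ha.trans e.symm))
    have hc := h c (fun e => hac (ha.trans e.symm))
    exact hbc (hb.trans hc.symm)
  · have ha' := h a ha
    have hb : b = L := by
      by_contra hb
      exact hab (ha'.trans (h b hb).symm)
    have hc : c = L := by
      by_contra hc
      exact hac (ha'.trans (h c hc).symm)
    exact hbc (hb.trans hc.symm)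

theorem AbsK.dec (K : AbsK A As) {L M : I} (h : L ≠ M) (g : H) :
    ∃ a ∈ A L, ∃ b ∈ A M, ∃ c ∈ As L, c ∈ As M ∧ g = a + b + c := by
  obtain ⟨b, hb, h1⟩ := K.k3 L M h g
  obtain ⟨a, ha, h2⟩ := K.k3 M L h.symm (g - b)
  exact ⟨a, ha, b, hb, g - b - a, (As L).sub_mem h1 (K.le L ha), h2, by abel⟩

theorem AbsK.uniq (K : AbsK A As) {L M : I} (h : L ≠ M) {a b c : H} (ha : a ∈ A L) (hb : b ∈ A M)
    (hc : c ∈ As L) (hc' : c ∈ As M) (e : a + b + c = 0) : a = 0 ∧ b = 0 ∧ c = 0 := by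
  have hb0 : b = 0 := by
    apply K.k2 L M h b _ hb
    have : b = -(a + c) := by rw [← sub_eq_zero, ← e]; abel
    rw [this]
    exact (As L).neg_mem ((As L).add_mem (K.le L ha) hc)
  have ha0 : a = 0 := by
    apply K.k2 M L h.symm a _ ha
    have : a = -(b + c) := by rw [← sub_eq_zero, ← e]; abel
    rw [this]
    exact (As M).neg_mem ((As M).add_mem (K.le M hb) hc')
  exact ⟨ha0, hb0, by simpa [ha0, hb0] using e⟩

/-- lifting an element of `A M` to `A N` along `As L` -/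
theorem AbsK.lift (K : AbsK A As) {L M N : I} (h : L ≠ M) (h' : L ≠ N) {b : H} (hb : b ∈ A M) :
    ∃ a ∈ A L, ∃ c ∈ As L, c ∈ As M ∧ a + b + c ∈ A N := by
  obtain ⟨n, hn, h1⟩ := K.k3 L N h' b
  obtain ⟨a, ha, h2⟩ := K.k3 M L h.symm (n - b)
  refine ⟨a, ha, n - b - a, (As L).sub_mem ?_ (K.le L ha), h2, ?_⟩
  · have := (As L).neg_mem h1
    rwa [neg_sub] at this
  · have : a + b + (n - b - a) = n := by abel
    rwa [this]

theorem AbsK.sec (K : AbsK A As) {L M : I} (h : L ≠ M) {b c : H} (hb : b ∈ A M) (hb0 : b ≠ 0)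
    (hc : c ∈ As L) : ∃ N, N ≠ L ∧ ∃ a ∈ A L, a + b + c ∈ A N := by
  obtain ⟨N, hN, a, ha, h1⟩ := K.k4 L (b + c) (fun h1 =>
    hb0 (K.k2 L M h b (by simpa using (As L).sub_mem h1 hc) hb))
  refine ⟨N, hN, a, ha, ?_⟩
  have : a + b + c = b + c + a := by abel
  rwa [this]

theorem AbsK.ntC (K : AbsK A As) {L M : I} (h : L ≠ M) : ∃ c ∈ As L, c ∈ As M ∧ c ≠ 0 := by
  obtain ⟨N, hNL, hNM⟩ := K.third L M
  obtain ⟨b, hb, hb0⟩ := K.nt M
  obtain ⟨a, ha, c, hc, hc', h1⟩ := K.lift h hNL.symm hb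
  refine ⟨c, hc, hc', ?_⟩
  rintro rfl
  rw [add_zero] at h1
  have := K.k1 L M N h hNL.symm hNM.symm a ha b hb h1
  exact hb0 (K.uniq h ha hb hc hc' (by rw [this, add_zero])).2.1

theorem AbsK.surjC (K : AbsK A As) (P : APres A As α) {L M : I} (h : L ≠ M) {b : H}
    (hb : b ∈ A M) (hb0 : α b ≠ 0) {c' : H} (h1 : c' ∈ As L) (h2 : c' ∈ As M) :
    ∃ c ∈ As L, c ∈ As M ∧ α c = c' := by
  obtain ⟨N, hN, a', ha', h3⟩ := K.sec h (P.h1 M b hb) hb0 h1
  obtain ⟨a, ha, c, hc, hc', h4⟩ := K.lift h hN.symm hb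
  refine ⟨c, hc, hc', ?_⟩
  have h5 := (A N).sub_mem (P.h1 N _ h4) h3
  have e : α (a + b + c) - (a' + α b + c') = (α a - a') + 0 + (α c - c') := by
    simp only [map_add]; abel
  have m1 : α a - a' ∈ A L := (A L).sub_mem (P.h1 L a ha) ha'
  have m2 : α c - c' ∈ As L := (As L).sub_mem (P.h2 L c hc) h1
  have m3 : α c - c' ∈ As M := (As M).sub_mem (P.h2 M c hc') h2
  rw [e] at h5
  have h6 := K.k2 L N hN.symm _ ((As L).add_mem (by simpa using K.le L m1) m2) h5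
  exact sub_eq_zero.mp (K.uniq h m1 (A M).zero_mem m2 m3 h6).2.2

theorem AbsK.injC (K : AbsK A As) (P : APres A As α) {L M : I} (h : L ≠ M) {b : H}
    (hb : b ∈ A M) (hb0 : α b ≠ 0) {c : H} (h1 : c ∈ As L) (h2 : c ∈ As M) (hc : α c = 0) :
    c = 0 := by
  obtain ⟨N, hN, a, ha, h3⟩ := K.sec h hb (fun e => hb0 (by rw [e, map_zero])) h1
  by_cases hNM : N = M
  · subst hNM
    have h4 : a + 0 + c ∈ A N := by
      have : a + 0 + c = a + b + c - b := by abel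
      rw [this]
      exact (A N).sub_mem h3 hb
    have h5 := K.k2 L N h _ ((As L).add_mem (by simpa using K.le L ha) h1) h4
    exact (K.uniq h ha (A N).zero_mem h1 h2 h5).2.2
  · exfalso
    have h4 := P.h1 N _ h3
    rw [map_add, map_add, hc, add_zero] at h4
    have h5 := K.k1 L M N h hN.symm (Ne.symm hNM) _ (P.h1 L a ha) _ (P.h1 M b hb) h4
    exact hb0 (K.uniq h (P.h1 L a ha) (P.h1 M b hb) (As L).zero_mem (As M).zero_mem
      (by rw [h5, add_zero])).2.1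

theorem AbsK.ne_on (K : AbsK A As) (P : APres A As α) (h0 : α ≠ 0) (M : I) :
    ∃ b ∈ A M, α b ≠ 0 := by
  by_contra hcon
  push Not at hcon
  obtain ⟨L, hL, -⟩ := K.third M M
  have zC : ∀ c ∈ As L, c ∈ As M → α c = 0 := by
    intro c h1 h2
    obtain ⟨b, hb, hb0⟩ := K.nt M
    obtain ⟨N, hN, a, ha, h3⟩ := K.sec hL hb hb0 h1
    have h4 := P.h1 N _ h3
    rw [map_add, map_add, hcon b hb] at h4
    have h5 := K.k2 L N hN.symm _
      ((As L).add_mem (by simpa using K.le L (P.h1 L a ha)) (P.h2 L c h1)) h4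
    exact (K.uniq hL (P.h1 L a ha) (A M).zero_mem (P.h2 L c h1) (P.h2 M c h2) h5).2.2
  have zL : ∀ a ∈ A L, α a = 0 := by
    intro a ha
    by_contra hne
    obtain ⟨c, h1, h2, h3⟩ := K.ntC hL
    exact h3 (K.injC P hL.symm ha hne h2 h1 (zC c h1 h2))
  apply h0
  ext g
  obtain ⟨a, ha, b, hb, c, h1, h2, rfl⟩ := K.dec hL g
  rw [map_add, map_add, zL a ha, hcon b hb, zC c h1 h2]; simp

theorem AbsK.injA (K : AbsK A As) (P : APres A As α) (h0 : α ≠ 0) {M : I} {b : H} (hb : b ∈ A M)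
    (hb0 : α b = 0) : b = 0 := by
  by_contra hne
  obtain ⟨L, hL, -⟩ := K.third M M
  obtain ⟨b', hb', hb1⟩ := K.ne_on P h0 M
  obtain ⟨c, h1, h2, h3⟩ := K.ntC hL
  obtain ⟨N, hN, a, ha, h4⟩ := K.sec hL hb hne h1
  have h5 := P.h1 N _ h4
  rw [map_add, map_add, hb0] at h5
  have h6 := K.k2 L N hN.symm _
    ((As L).add_mem (by simpa using K.le L (P.h1 L a ha)) (P.h2 L c h1)) h5
  exact h3 (K.injC P hL hb' hb1 h1 h2
    (K.uniq hL (P.h1 L a ha) (A M).zero_mem (P.h2 L c h1) (P.h2 M c h2) h6).2.2)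

theorem AbsK.inj (K : AbsK A As) (P : APres A As α) (h0 : α ≠ 0) : Function.Injective α := by
  rw [injective_iff_map_eq_zero]
  intro g hg
  obtain ⟨L, M, -, h, -⟩ := K.three
  obtain ⟨a, ha, b, hb, c, h1, h2, rfl⟩ := K.dec h g
  rw [map_add, map_add] at hg
  obtain ⟨e1, e2, e3⟩ := K.uniq h (P.h1 L a ha) (P.h1 M b hb) (P.h2 L c h1) (P.h2 M c h2) hg
  obtain ⟨b', hb', hb1⟩ := K.ne_on P h0 M
  rw [K.injA P h0 ha e1, K.injA P h0 hb e2, K.injC P h hb' hb1 h1 h2 e3]; simp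

/-- if `α` misses an element of `A M`, the lifts to the other members give many cosets of the
image of `A L` -/
theorem AbsK.cosets (K : AbsK A As) (P : APres A As α) (h0 : α ≠ 0) {L M : I} (h : L ≠ M) {b : H}
    (hb : b ∈ A M) (hn : ∀ b' ∈ A M, α b' ≠ b) :
    ∃ a : {N // L ≠ N} → H, (∀ N, a N ∈ A L) ∧
      ∀ N N', ∀ a' ∈ A L, a N - a N' = α a' → N = N' := by
  choose a ha c h1 h2 h3 using fun N : {N // L ≠ N} => K.lift h N.2 hb
  refine ⟨a, ha, fun N N' a' ha' e => ?_⟩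
  by_contra hne
  have hne' : N.1 ≠ N'.1 := fun e => hne (Subtype.ext e)
  obtain ⟨b', hb', hb1⟩ := K.ne_on P h0 M
  obtain ⟨c', i1, i2, i3⟩ := K.surjC P h hb' hb1 ((As L).sub_mem (h1 N) (h1 N'))
    ((As M).sub_mem (h2 N) (h2 N'))
  obtain ⟨p, hp, q, hq, r, hr, hr', e1⟩ := K.dec hne' (a' + c')
  have e2 : (α p - (a N + b + c N)) + (α q + (a N' + b + c N')) + α r = 0 := by
    have := congrArg α e1
    rw [map_add, map_add, map_add, i3, ← e] at this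
    rw [← sub_eq_zero.mpr this.symm]; abel
  have e3 := (K.uniq hne' ((A N).sub_mem (P.h1 _ p hp) (h3 N)) ((A N').add_mem (P.h1 _ q hq) (h3 N'))
    (P.h2 _ r hr) (P.h2 _ r hr') e2).1
  obtain ⟨a1, ha1, b1, hb1', c1, j1, j2, rfl⟩ := K.dec h p
  have e4 : (α a1 - a N) + (α b1 - b) + (α c1 - c N) = 0 := by
    rw [← e3]; simp only [map_add]; abel
  exact hn b1 hb1' (sub_eq_zero.mp (K.uniq h ((A L).sub_mem (P.h1 L a1 ha1) (ha N))
    ((A M).sub_mem (P.h1 M b1 hb1') hb) ((As L).sub_mem (P.h2 L c1 j1) (h1 N))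
    ((As M).sub_mem (P.h2 M c1 j2) (h2 N)) e4).2.1)

/-- if `α` is onto on every `A M` it has an inverse preserving the family -/
theorem AbsK.inverse (K : AbsK A As) (P : APres A As α) (h0 : α ≠ 0)
    (hs : ∀ M, ∀ b ∈ A M, ∃ b' ∈ A M, α b' = b) :
    ∃ β : H →+ H, APres A As β ∧ (∀ g, α (β g) = g) ∧ ∀ g, β (α g) = g := by
  have hC : ∀ L M, L ≠ M → ∀ c' ∈ As L, c' ∈ As M → ∃ c ∈ As L, c ∈ As M ∧ α c = c' := by
    intro L M h c' h1 h2
    obtain ⟨b', hb', hb1⟩ := K.ne_on P h0 M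
    exact K.surjC P h hb' hb1 h1 h2
  have surj : Function.Surjective α := by
    intro g
    obtain ⟨L, M, -, h, -⟩ := K.three
    obtain ⟨a, ha, b, hb, c, h1, h2, rfl⟩ := K.dec h g
    obtain ⟨a', -, rfl⟩ := hs L a ha
    obtain ⟨b', -, rfl⟩ := hs M b hb
    obtain ⟨c', -, -, rfl⟩ := hC L M h c h1 h2
    exact ⟨a' + b' + c', by simp⟩
  let E := AddEquiv.ofBijective α ⟨K.inj P h0, surj⟩
  have e1 : ∀ g, α (E.symm g) = g := E.apply_symm_apply
  have e2 : ∀ g, E.symm (α g) = g := E.symm_apply_apply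
  refine ⟨E.symm.toAddMonoidHom, ⟨fun L g hg => ?_, fun L g hg => ?_⟩, e1, e2⟩
  · obtain ⟨g', hg', rfl⟩ := hs L g hg
    show E.symm (α g') ∈ _
    rwa [e2]
  · obtain ⟨M, hM, -⟩ := K.third L L
    obtain ⟨a, ha, h1⟩ := K.k3 M L hM g
    obtain ⟨a', ha', rfl⟩ := hs L a ha
    obtain ⟨c, i1, -, i3⟩ := hC L M hM.symm _ ((As L).sub_mem hg (K.le L ha)) h1
    have : g = α (a' + c) := by rw [map_add, i3]; abel
    show E.symm g ∈ _
    rw [this, e2]
    exact (As L).add_mem (K.le L ha') i1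

/-- `s ≤ t` -/
theorem AbsK.s_le_t (K : AbsK A As) (M : I) :
    ∃ φ : {b : H // b ∈ A M ∧ b ≠ 0} → I, Function.Injective φ := by
  obtain ⟨L, hL, -⟩ := K.third M M
  obtain ⟨c, h1, h2, h3⟩ := K.ntC hL
  choose φ hφ a ha h4 using fun b : {b : H // b ∈ A M ∧ b ≠ 0} => K.sec hL b.2.1 b.2.2 h1
  refine ⟨φ, fun b b' e => ?_⟩
  have hM : φ b ≠ M := by
    intro e'
    have h5 := h4 b
    rw [e'] at h5
    have h6 : a b + 0 + c ∈ A M := by
      have : a b + 0 + c = a b + b.1 + c - b.1 := by abel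
      rw [this]
      exact (A M).sub_mem h5 b.2.1
    have h7 := K.k2 L M hL _ ((As L).add_mem (by simpa using K.le L (ha b)) h1) h6
    exact h3 (K.uniq hL (ha b) (A M).zero_mem h1 h2 h7).2.2
  have h5 := (A (φ b)).sub_mem (h4 b) (e ▸ h4 b')
  have e1 : a b + b.1 + c - (a b' + b'.1 + c) = (a b - a b') + (b.1 - b'.1) := by abel
  rw [e1] at h5
  have m1 := (A L).sub_mem (ha b) (ha b')
  have m2 := (A M).sub_mem b.2.1 b'.2.1
  have h6 := K.k1 L M (φ b) hL (hφ b).symm hM.symm _ m1 _ m2 h5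
  exact Subtype.ext (sub_eq_zero.mp (K.uniq hL m1 m2 (As L).zero_mem (As M).zero_mem
    (by rw [h6, add_zero])).2.1)

end Pool.Agent.Lib.MP_0f105f_co
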