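import Mathlib
import Pool.Agent.Lib.MP_0f105f_co.Kantor

/-!
The Kantor family on `A × A × B` attached to a generalized oval, and its kernel.
-/

set_option autoImplicit false

namespace Pool.Agent.Lib.MP_0f105f_co

variable {A B I : Type} [AddCommGroup A] [AddCommGroup B]

/-- a generalized oval with nucleus, in coordinates -/
structure Fam (σ : I → A →+ A) (h : I → A →+ B) : Prop where
  surj : ∀ p q, p ≠ q → ∀ y, ∃ v, σ p v - σ q v = y
  inj : ∀ p q, p ≠ q → ∀ v, σ p v = σ q v → v = 0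
  two : ∀ p q, p ≠ q → ∀ v, h p v = h q v → v = 0
  three : ∀ p q r, p ≠ q → p ≠ r → q ≠ r → ∀ u v w, u + v + w = 0 →
    σ p u + σ q v + σ r w = 0 → h p u + h q v + h r w = 0 → u = 0
  cov : ∀ x, x ≠ 0 → ∀ z, ∃ p, h p x = z
  slope : ∀ p w, w ≠ 0 → ∀ m, m ≠ 0 → ∃ q, q ≠ p ∧ ∃ v, σ q v - σ p v = w ∧ h q v - h p v = m
  ntA : ∃ a : A, a ≠ 0
  ntB : ∃ b : B, b ≠ 0

/-- the first coordinate maps -/
def fpi (B : Type) [AddCommGroup B] (σ : I → A →+ A) : Option I → (A × A × B) →+ A
  | none => AddMonoidHom.mk' (fun v => v.1) (fun _ _ => rfl)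
  | some d => AddMonoidHom.mk' (fun v => v.2.1 - σ d v.1) (fun a b => by
      simp only [Prod.fst_add, Prod.snd_add, map_add]; abel)

/-- the second coordinate maps -/
def fpsi (h : I → A →+ B) : Option I → (A × A × B) →+ B
  | none => AddMonoidHom.mk' (fun v => v.2.2) (fun _ _ => rfl)
  | some d => AddMonoidHom.mk' (fun v => v.2.2 - h d v.1) (fun a b => by
      simp only [Prod.fst_add, Prod.snd_add, map_add]; abel)

@[simp] theorem fpi_none (σ : I → A →+ A) (v : A × A × B) : fpi B σ none v = v.1 := rfl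
@[simp] theorem fpi_some (σ : I → A →+ A) (d : I) (v : A × A × B) :
    fpi B σ (some d) v = v.2.1 - σ d v.1 := rfl
@[simp] theorem fpsi_none (h : I → A →+ B) (v : A × A × B) : fpsi h none v = v.2.2 := rfl
@[simp] theorem fpsi_some (h : I → A →+ B) (d : I) (v : A × A × B) :
    fpsi h (some d) v = v.2.2 - h d v.1 := rfl

variable {σ : I → A →+ A} {h : I → A →+ B}

theorem Fam.twoI (F : Fam σ h) : ∃ p q : I, p ≠ q := by
  obtain ⟨a, ha⟩ := F.ntA
  obtain ⟨b, hb⟩ := F.ntB
  obtain ⟨p, hp⟩ := F.cov a ha 0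
  obtain ⟨q, hq⟩ := F.cov a ha b
  refine ⟨p, q, ?_⟩
  rintro rfl
  exact hb (hq.symm.trans hp)

theorem Fam.kantor (F : Fam σ h) : Kantor (fpi B σ) (fpsi h) := by
  have fin : ∀ (d : I) (x y : A) (z : B), y - σ d x = 0 → z - h d x = 0 → x = 0 →
      ((x, y, z) : A × A × B) = 0 := by
    intro d x y z a b c
    subst c
    simp only [sub_zero, map_zero] at a b
    rw [a, b]; rfl
  constructor
  · rintro (_ | d) (_ | e) hne a b c
    · exact absurd rfl hne
    · exact ⟨(a, b + σ e a, c + h e a), by simp, by simp, by simp⟩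
    · exact ⟨(b, a + σ d b, c), by simp, by simp, by simp⟩
    · have hde : e ≠ d := fun h => hne (by rw [h])
      obtain ⟨v, hv⟩ := F.surj e d hde (a - b)
      refine ⟨(v, b + σ e v, c + h e v), ?_, by simp, by simp⟩
      simp only [fpi_some]
      rw [add_sub_assoc, hv]; abel
  · rintro (_ | d) (_ | e) hne ⟨x, y, z⟩ ha hb hc
    · exact absurd rfl hne
    · exact fin e x y z hb hc ha
    · simp only [fpi_none, fpi_some, fpsi_none] at ha hb hc
      subst hb
      simp only [map_zero, sub_zero] at ha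
      rw [ha, hc]; rfl
    · have hde : d ≠ e := fun h => hne (by rw [h])
      simp only [fpi_some, fpsi_some] at ha hb hc
      exact fin e x y z hb hc (F.inj d e hde x
        ((sub_eq_zero.mp ha).symm.trans (sub_eq_zero.mp hb)))
  · rintro (_ | d) ⟨x, y, z⟩ hg
    · obtain ⟨p, hp⟩ := F.cov x hg z
      exact ⟨some p, (0, y - σ p x, 0), rfl, rfl, by simp, by simp [hp]⟩
    · simp only [fpi_some] at hg
      by_cases hz : z - h d x = 0
      · exact ⟨none, (x, σ d x, h d x), by simp, by simp, rfl, (sub_eq_zero.mp hz).symm⟩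
      · obtain ⟨e, -, v, h1, h2⟩ := F.slope d _ hg _ hz
        refine ⟨some e, (x - v, σ d (x - v), h d (x - v)), by simp, by simp, ?_, ?_⟩
        · simp only [fpi_some, map_sub]
          rw [← sub_eq_zero, ← sub_eq_zero.mpr h1]; abel
        · simp only [fpsi_some, map_sub]
          rw [← sub_eq_zero, ← sub_eq_zero.mpr h2]; abel
  · rintro (_ | d) (_ | e) (_ | f) hLM hLN hMN ⟨x, y, z⟩ ⟨x', y', z'⟩ a1 a2 b1 b2 c1 c2
    · exact absurd rfl hLM
    · exact absurd rfl hLM
    · exact absurd rfl hLN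
    · have hef : e ≠ f := fun h => hMN (by rw [h])
      simp only [fpi_none, fpi_some, fpsi_none, fpsi_some, Prod.mk_add_mk] at a1 a2 b1 b2 c1 c2
      subst a1 a2
      simp only [zero_add] at c1 c2
      have hx' : x' = 0 := F.two e f hef x' ((sub_eq_zero.mp b2).symm.trans (sub_eq_zero.mp c2))
      subst hx'
      simp only [map_zero, sub_zero] at b1 c1
      rw [b1, add_zero] at c1
      rw [c1]; rfl
    · exact absurd rfl hMN
    · have hdf : d ≠ f := fun h => hLN (by rw [h])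
      simp only [fpi_none, fpi_some, fpsi_none, fpsi_some, Prod.mk_add_mk] at a1 a2 b1 b2 c1 c2
      subst b1 b2
      simp only [add_zero] at c1 c2
      exact fin d x y z a1 a2
        (F.two d f hdf x ((sub_eq_zero.mp a2).symm.trans (sub_eq_zero.mp c2)))
    · have hde : d ≠ e := fun h => hLM (by rw [h])
      simp only [fpi_none, fpi_some, fpsi_none, fpsi_some, Prod.mk_add_mk] at a1 a2 b1 b2 c1 c2
      apply fin d x y z a1 a2
      apply F.two d e hde x
      have hx : x' = -x := (neg_eq_of_add_eq_zero_right c1).symm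
      rw [hx, map_neg] at b2
      rw [← sub_eq_zero.mp a2, ← sub_eq_zero, ← c2, sub_eq_zero.mp b2]; abel
    · have hde : d ≠ e := fun h => hLM (by rw [h])
      have hdf : d ≠ f := fun h => hLN (by rw [h])
      have hef : e ≠ f := fun h => hMN (by rw [h])
      simp only [fpi_some, fpsi_some, Prod.mk_add_mk] at a1 a2 b1 b2 c1 c2
      apply fin d x y z a1 a2
      apply F.three d e f hde hdf hef x x' (-(x + x')) (by abel)
      · rw [map_neg, ← sub_eq_zero.mp a1, ← sub_eq_zero.mp b1, ← c1]; abel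
      · rw [map_neg, ← sub_eq_zero.mp a2, ← sub_eq_zero.mp b2, ← c2]; abel
  · obtain ⟨p, q, hpq⟩ := F.twoI
    exact ⟨none, some p, some q, by simp, by simp, by simpa using hpq⟩
  · exact F.ntA
  · exact F.ntB

/-- endomorphisms preserving the family -/
structure Pres (σ : I → A →+ A) (h : I → A →+ B) (g : (A × A × B) →+ (A × A × B)) : Prop where
  h1 : ∀ L t, fpi B σ L t = 0 → fpi B σ L (g t) = 0
  h2 : ∀ L t, fpi B σ L t = 0 → fpsi h L t = 0 → fpsi h L (g t) = 0

theorem Pres.formula {g : (A × A × B) →+ (A × A × B)} (P : Pres σ h g) (p : I) (x : A) :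
    (g (x, σ p x, h p x)).1 = (g (x, 0, 0)).1 ∧
      h p (g (x, 0, 0)).1 = (g (x, 0, 0)).2.2 + (g (0, 0, h p x)).2.2 := by
  have e0 : ((x, σ p x, h p x) : A × A × B) = (x, 0, 0) + (0, σ p x, 0) + (0, 0, h p x) := by simp
  have e1 : (g (0, σ p x, 0)).1 = 0 := P.h1 none _ rfl
  have e2 : (g (0, 0, h p x)).1 = 0 := P.h1 none _ rfl
  have e3 : (g (0, σ p x, 0)).2.2 = 0 := P.h2 none _ rfl rfl
  have e4 : (g (x, σ p x, h p x)).2.2 - h p (g (x, σ p x, h p x)).1 = 0 :=
    P.h2 (some p) _ (by simp) (by simp)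
  have e5 : (g (x, σ p x, h p x)).1 = (g (x, 0, 0)).1 := by
    rw [e0, map_add, map_add, Prod.fst_add, Prod.fst_add, e1, e2, add_zero, add_zero]
  refine ⟨e5, ?_⟩
  rw [← e5, ← sub_eq_zero.mp e4, e0, map_add, map_add, Prod.snd_add, Prod.snd_add, Prod.snd_add,
    Prod.snd_add, e3, add_zero]

theorem Pres.par {g : (A × A × B) →+ (A × A × B)} (P : Pres σ h g) (e : A) (p q r o : I)
    (he : h p e + h q e = h r e + h o e) :
    h p (g (e, 0, 0)).1 + h q (g (e, 0, 0)).1 = h r (g (e, 0, 0)).1 + h o (g (e, 0, 0)).1 := by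
  have add : ∀ a b : B, (g (0, 0, a)).2.2 + (g (0, 0, b)).2.2 = (g (0, 0, a + b)).2.2 := by
    intro a b
    rw [← Prod.snd_add, ← Prod.snd_add, ← map_add]; simp
  rw [(P.formula p e).2, (P.formula q e).2, (P.formula r e).2, (P.formula o e).2,
    add_add_add_comm, add, he, ← add, add_add_add_comm]

theorem Pres.eq_zero (F : Fam σ h) {g : (A × A × B) →+ (A × A × B)} (P : Pres σ h g) (e : A)
    (he : e ≠ 0) (h0 : (g (e, 0, 0)).1 = 0) : g = 0 := by
  obtain ⟨p, q, hpq⟩ := F.twoI
  have b0 : ∀ z, (g (e, 0, 0)).2.2 + (g (0, 0, z)).2.2 = 0 := by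
    intro z
    obtain ⟨r, hr⟩ := F.cov e he z
    rw [← hr, ← (P.formula r e).2, h0, map_zero]
  have b1 : ∀ z, (g (0, 0, z)).2.2 = 0 := by
    intro z
    have h1 := b0 0
    have h2 := b0 z
    have h3 : g (0, 0, 0) = 0 := map_zero g
    rw [h3] at h1
    simp only [Prod.snd_zero, add_zero] at h1
    rwa [h1, zero_add] at h2
  have a0 : ∀ x, (g (x, 0, 0)).1 = 0 := by
    intro x
    apply F.two p q hpq
    rw [(P.formula p x).2, (P.formula q x).2, b1, b1]
  have z1 : ∀ r x, g (x, σ r x, h r x) = 0 := by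
    intro r x
    have e1 := (P.formula r x).1
    rw [a0] at e1
    have e2 : (g (x, σ r x, h r x)).2.1 - σ r (g (x, σ r x, h r x)).1 = 0 :=
      P.h1 (some r) _ (by simp)
    have e3 : (g (x, σ r x, h r x)).2.2 - h r (g (x, σ r x, h r x)).1 = 0 :=
      P.h2 (some r) _ (by simp) (by simp)
    rw [e1, map_zero, sub_zero] at e2 e3
    exact Prod.ext e1 (Prod.ext e2 e3)
  have z2 : ∀ z, g (0, 0, z) = 0 := by
    intro z
    have e1 : (g (0, 0, z)).1 = 0 := P.h1 none _ rfl
    have e2 : (g (0, 0, z)).2.1 - σ p (g (0, 0, z)).1 = 0 := P.h1 (some p) _ (by simp)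
    rw [e1, map_zero, sub_zero] at e2
    exact Prod.ext e1 (Prod.ext e2 (b1 z))
  ext1 ⟨x, y, z⟩
  obtain ⟨u, hu⟩ := F.surj p q hpq (y - σ q x)
  have : ((x, y, z) : A × A × B) = (u, σ p u, h p u) + (x - u, σ q (x - u), h q (x - u)) +
      (0, 0, z - h p u - h q (x - u)) := by
    refine Prod.ext (by simp) (Prod.ext ?_ (by simp))
    simp only [Prod.mk_add_mk, map_sub, add_zero]
    rw [← sub_eq_zero, ← neg_eq_zero, ← sub_eq_zero.mpr hu]; abel
  rw [this, map_add, map_add, z1, z1, z2]; simp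

section
variable {V R K J : Type} [AddCommGroup V] [AddCommGroup R] [AddCommGroup K]
  {π : J → V →+ R} {ψ : J → V →+ K}

theorem trEnd_surj (α : (trHom π ψ).range →* (trHom π ψ).range) : ∃ f, trEnd π ψ f = α := by
  refine ⟨AddMonoidHom.toMultiplicative.symm
    ((trEquiv π ψ).symm.toMonoidHom.comp (α.comp (trEquiv π ψ).toMonoidHom)), ?_⟩
  ext1 g
  simp [trEnd]

theorem trEnd_inj {f f' : V →+ V} (hf : trEnd π ψ f = trEnd π ψ f') : f = f' := by
  ext t
  have := DFunLike.congr_fun hf (trEquiv π ψ (Multiplicative.ofAdd t))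
  rw [trEnd_apply, trEnd_apply] at this
  exact Multiplicative.ofAdd.injective ((trEquiv π ψ).injective this)

theorem of_trEnd_mem_kernel (f : V →+ V)
    (hf : trEnd π ψ f ∈ (geom π ψ).kernel .inf (.aff 0) (trHom π ψ).range) :
    (∀ L t, π L t = 0 → π L (f t) = 0) ∧ ∀ L t, π L t = 0 → ψ L t = 0 → ψ L (f t) = 0 := by
  have key := fun L => hf (.br L) (.cos L 0 0) (.st L 0) trivial ⟨map_zero _, map_zero _⟩ rfl
    ⟨rfl, rfl⟩
  constructor
  · intro L t ht
    have h1 : trEquiv π ψ (Multiplicative.ofAdd t) ∈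
        (geom π ψ).pointStab (trHom π ψ).range (.st L 0) := by
      show (Pt.st L (0 + π L t) : Pt V R J) = .st L 0
      rw [ht, add_zero]
    have h2 := (key L).2 _ h1
    rw [trEnd_apply] at h2
    have h3 : (Pt.st L (0 + π L (f t)) : Pt V R J) = .st L 0 := h2
    injection h3 with _ h3
    simpa using h3
  · intro L t ht ht'
    have h1 : trEquiv π ψ (Multiplicative.ofAdd t) ∈
        (geom π ψ).lineStab (trHom π ψ).range (.cos L 0 0) := by
      show (Ln.cos L (0 + π L t) (0 + ψ L t) : Ln R K J) = .cos L 0 0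
      rw [ht, ht', add_zero, add_zero]
    have h2 := (key L).1 _ h1
    rw [trEnd_apply] at h2
    have h3 : (Ln.cos L (0 + π L (f t)) (0 + ψ L (f t)) : Ln R K J) = .cos L 0 0 := h2
    injection h3 with _ _ h3
    simpa using h3

end

end Pool.Agent.Lib.MP_0f105f_co
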