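import Mathlib
import Pool.Agent.Lib.MP_0f105f_co.Defs

/-!
A set of endomorphisms of a group, viewed as a ring.
-/

set_option autoImplicit false

namespace Pool.Agent.Lib.MP_0f105f_co

/-- The set `k` of endomorphisms of the (abelian, multiplicatively written) group `H`, with
pointwise multiplication as addition and composition as multiplication, is a ring isomorphic
to `R`. -/
def IsoToRing (R : Type) [Ring R] {H : Type} [Group H] (k : Set (H →* H)) : Prop :=
  ∃ ρ : R → (H →* H), Function.Injective ρ ∧ Set.range ρ = k ∧ ρ 1 = MonoidHom.id H ∧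
    (∀ (r s : R) (g : H), ρ (r + s) g = ρ r g * ρ s g) ∧
    ∀ r s : R, ρ (r * s) = (ρ r).comp (ρ s)

end Pool.Agent.Lib.MP_0f105f_co
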