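import Mathlib
import Pool.Agent.Lib.MP_0f105f_co.Defs
import Pool.Agent.Lib.MP_0f105f_co.KAbs

/-!
The Kantor family of a translation generalized quadrangle.
-/

set_option autoImplicit false

namespace Pool.Agent.Lib.MP_0f105f_co

namespace Geometry

variable {S : Geometry} {x y : S.Point} {G : Subgroup S.Aut}

theorem inc_on (g : S.Aut) (p : S.Point) (L : S.Line) :
    S.inc (S.onPoint g p) (S.onLine g L) ↔ S.inc p L := g.2 p L

theorem onPoint_mul (g h : S.Aut) (p : S.Point) :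
    S.onPoint (g * h) p = S.onPoint g (S.onPoint h p) := rfl

theorem onLine_mul (g h : S.Aut) (p : S.Line) :
    S.onLine (g * h) p = S.onLine g (S.onLine h p) := rfl

theorem onPoint_one (p : S.Point) : S.onPoint 1 p = p := rfl

theorem onLine_one (p : S.Line) : S.onLine 1 p = p := rfl

theorem onPoint_inv (g : S.Aut) (p : S.Point) : S.onPoint g⁻¹ (S.onPoint g p) = p := by
  rw [← onPoint_mul, inv_mul_cancel, onPoint_one]

theorem onLine_inv (g : S.Aut) (p : S.Line) : S.onLine g⁻¹ (S.onLine g p) = p := by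
  rw [← onLine_mul, inv_mul_cancel, onLine_one]

theorem col_on (g : S.Aut) {p q : S.Point} (h : S.Collinear p q) :
    S.Collinear (S.onPoint g p) (S.onPoint g q) := by
  obtain ⟨L, h1, h2⟩ := h
  exact ⟨S.onLine g L, (inc_on g p L).mpr h1, (inc_on g q L).mpr h2⟩

theorem Collinear.symm {p q : S.Point} (h : S.Collinear p q) : S.Collinear q p := by
  obtain ⟨L, h1, h2⟩ := h
  exact ⟨L, h2, h1⟩

theorem IsGQ.proj_uniq (h : S.IsGQ) {p q q' : S.Point} {L : S.Line} (hp : ¬ S.inc p L)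
    (h1 : S.inc q L) (h2 : S.inc q' L) (h3 : S.Collinear p q) (h4 : S.Collinear p q') : q = q' :=
  (h.projection p L hp).unique ⟨h1, h3⟩ ⟨h2, h4⟩

theorem IsGQ.meet_uniq (h : S.IsGQ) {p q : S.Point} {L M : S.Line} (hLM : L ≠ M)
    (h1 : S.inc p L) (h2 : S.inc q L) (h3 : S.inc p M) (h4 : S.inc q M) : p = q := by
  by_contra hne
  exact hLM (h.atMostOneLine p q hne L M h1 h2 h3 h4)

theorem IsTGQ.fixL (hT : S.IsTGQ x G) {g : S.Aut} (hg : g ∈ G) {L : S.Line} (hL : S.inc x L) :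
    S.onLine g L = L := by
  rcases hT.elation g hg with rfl | h
  · rfl
  · exact h.1 L hL

theorem IsTGQ.fixx (hT : S.IsTGQ x G) {g : S.Aut} (hg : g ∈ G) : S.onPoint g x = x := by
  obtain ⟨L, M, -, hLM, -, -, hL, hM, -⟩ := hT.gq.threeLines x
  have h1 := (inc_on g x L).mpr hL
  have h2 := (inc_on g x M).mpr hM
  rw [hT.fixL hg hL] at h1
  rw [hT.fixL hg hM] at h2
  exact hT.gq.meet_uniq hLM h1 hL h2 hM

theorem IsTGQ.aff (hT : S.IsTGQ x G) (hy : ¬ S.Collinear x y) {g : S.Aut} (hg : g ∈ G) :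
    ¬ S.Collinear x (S.onPoint g y) := by
  intro h
  have := col_on g⁻¹ h
  rw [hT.fixx (G.inv_mem hg), onPoint_inv] at this
  exact hy this

theorem IsTGQ.eq_one (hT : S.IsTGQ x G) (hy : ¬ S.Collinear x y) {g : S.Aut} (hg : g ∈ G)
    (h : S.onPoint g y = y) : g = 1 :=
  (hT.sharp y y hy hy).unique ⟨hg, h⟩ ⟨G.one_mem, rfl⟩

/-- `M` is the line through `y` meeting the line `L` through `x`, in the point `z` -/
structure Flag (S : Geometry) (x y : S.Point) (L M : S.Line) (z : S.Point) : Prop where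
  xL : S.inc x L
  yM : S.inc y M
  zL : S.inc z L
  zM : S.inc z M

theorem IsGQ.exists_flag (h : S.IsGQ) (hy : ¬ S.Collinear x y) {L : S.Line} (hL : S.inc x L) :
    ∃ M z, Flag S x y L M z := by
  obtain ⟨z, ⟨h1, M, h2, h3⟩, -⟩ := h.projection y L (fun h => hy ⟨L, hL, h⟩)
  exact ⟨M, z, hL, h2, h1, h3⟩

variable {L M L' M' : S.Line} {z z' : S.Point}

theorem Flag.uniq (h : S.IsGQ) (hy : ¬ S.Collinear x y) (F : Flag S x y L M z)
    (F' : Flag S x y L M' z') : M = M' ∧ z = z' := by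
  have hz : z = z' := h.proj_uniq (fun h => hy ⟨L, F.xL, h⟩) F.zL F'.zL ⟨M, F.yM, F.zM⟩
    ⟨M', F'.yM, F'.zM⟩
  subst hz
  refine ⟨h.atMostOneLine y z ?_ M M' F.yM F.zM F'.yM F'.zM, rfl⟩
  rintro rfl
  exact hy ⟨L, F.xL, F.zL⟩

theorem Flag.not_x (hy : ¬ S.Collinear x y) (F : Flag S x y L M z) : ¬ S.inc x M :=
  fun h => hy ⟨M, h, F.yM⟩

theorem Flag.col_x (h : S.IsGQ) (hy : ¬ S.Collinear x y) (F : Flag S x y L M z) {q : S.Point}
    (hq : S.inc q M) (hc : S.Collinear x q) : q = z :=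
  h.proj_uniq (F.not_x hy) hq F.zM hc ⟨L, F.xL, F.zL⟩

theorem Flag.z_ne (hy : ¬ S.Collinear x y) (F : Flag S x y L M z) : z ≠ x := by
  rintro rfl
  exact F.not_x hy F.zM

/-- a point of `L` other than `x` is not on the line `M'` belonging to another line `L'` -/
theorem Flag.not_on (h : S.IsGQ) (hy : ¬ S.Collinear x y) (F' : Flag S x y L' M' z')
    (hL : S.inc x L) (hne : L ≠ L') {q : S.Point} (hq : S.inc q L) (hqx : q ≠ x) :
    ¬ S.inc q M' := by
  intro h1
  have := F'.col_x h hy h1 ⟨L, hL, hq⟩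
  subst this
  exact hqx (h.meet_uniq hne hq hL F'.zL F'.xL)

theorem IsTGQ.star_iff (hT : S.IsTGQ x G) (hy : ¬ S.Collinear x y) (F : Flag S x y L M z)
    {g : S.Aut} (hg : g ∈ G) : S.onPoint g z = z ↔ S.Collinear (S.onPoint g y) z := by
  have h1 : S.Collinear (S.onPoint g y) (S.onPoint g z) := col_on g ⟨M, F.yM, F.zM⟩
  constructor
  · intro h
    rwa [h] at h1
  · intro h
    have h2 := (inc_on g z L).mpr F.zL
    rw [hT.fixL hg F.xL] at h2
    exact hT.gq.proj_uniq (fun h => hT.aff hy hg ⟨L, F.xL, h⟩) h2 F.zL h1 h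

theorem IsTGQ.line_iff (hT : S.IsTGQ x G) (hy : ¬ S.Collinear x y) (F : Flag S x y L M z)
    {g : S.Aut} (hg : g ∈ G) : S.onLine g M = M ↔ S.inc (S.onPoint g y) M := by
  have h1 := (inc_on g y M).mpr F.yM
  constructor
  · intro h
    rwa [h] at h1
  · intro h
    have h2 := (hT.star_iff hy F hg).mpr ⟨M, h, F.zM⟩
    have h3 := (inc_on g z M).mpr F.zM
    rw [h2] at h3
    refine hT.gq.atMostOneLine (S.onPoint g y) z ?_ _ _ h1 h3 h F.zM
    intro e
    exact hT.aff hy hg ⟨L, F.xL, by rw [e]; exact F.zL⟩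

theorem IsTGQ.exists_move (hT : S.IsTGQ x G) (hy : ¬ S.Collinear x y) (F : Flag S x y L M z)
    {q : S.Point} (hq : S.inc q M) (hqz : q ≠ z) :
    ∃ g ∈ G, S.onPoint g y = q ∧ S.onLine g M = M := by
  obtain ⟨g, ⟨hg, e⟩, -⟩ := hT.sharp y q hy (fun h => hqz (F.col_x hT.gq hy hq h))
  exact ⟨g, hg, e, (hT.line_iff hy F hg).mpr (by rw [e]; exact hq)⟩

/-- the translation group is commutative -/
abbrev IsTGQ.commGroup (hT : S.IsTGQ x G) : CommGroup G :=
  { (inferInstance : Group G) with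
    mul_comm := fun a b => Subtype.ext (hT.comm a a.2 b b.2) }

/-- line stabiliser, additively -/
def lineSub (S : Geometry) (G : Subgroup S.Aut) (M : S.Line) : AddSubgroup (Additive G) where
  carrier := {g | S.onLine (g.toMul : G) M = M}
  zero_mem' := rfl
  add_mem' := fun {a b} ha hb => by
    show S.onLine ((a.toMul : G) * (b.toMul : G) : S.Aut) M = M
    rw [onLine_mul, hb, ha]
  neg_mem' := fun {a} ha => by
    show S.onLine ((a.toMul : G) : S.Aut)⁻¹ M = M
    conv_lhs => rw [← ha]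
    exact onLine_inv _ _

/-- point stabiliser, additively -/
def pointSub (S : Geometry) (G : Subgroup S.Aut) (z : S.Point) : AddSubgroup (Additive G) where
  carrier := {g | S.onPoint (g.toMul : G) z = z}
  zero_mem' := rfl
  add_mem' := fun {a b} ha hb => by
    show S.onPoint ((a.toMul : G) * (b.toMul : G) : S.Aut) z = z
    rw [onPoint_mul, hb, ha]
  neg_mem' := fun {a} ha => by
    show S.onPoint ((a.toMul : G) : S.Aut)⁻¹ z = z
    conv_lhs => rw [← ha]
    exact onPoint_inv _ _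

theorem IsTGQ.k2 (hT : S.IsTGQ x G) (hy : ¬ S.Collinear x y) (F : Flag S x y L M z)
    (F' : Flag S x y L' M' z') (hne : L ≠ L') {g : S.Aut} (hg : g ∈ G) (h1 : S.onPoint g z = z)
    (h2 : S.onLine g M' = M') : g = 1 := by
  apply hT.eq_one hy hg
  exact hT.gq.proj_uniq (F'.not_on hT.gq hy F.xL hne F.zL (F.z_ne hy))
    ((hT.line_iff hy F' hg).mp h2) F'.yM ((hT.star_iff hy F hg).mp h1).symm ⟨M, F.zM, F.yM⟩

theorem IsTGQ.absK (hT : S.IsTGQ x G) (hy : ¬ S.Collinear x y)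
    (m : {L // S.inc x L} → S.Line) (w : {L // S.inc x L} → S.Point)
    (hF : ∀ L, Flag S x y L.1 (m L) (w L)) :
    letI := hT.commGroup
    AbsK (H := Additive G) (fun L => lineSub S G (m L)) (fun L => pointSub S G (w L)) := by
  letI := hT.commGroup
  have le : ∀ L, ∀ g ∈ G, S.onLine g (m L) = m L → S.onPoint g (w L) = w L := fun L g hg h =>
    (hT.star_iff hy (hF L) hg).mpr ⟨m L, (hT.line_iff hy (hF L) hg).mp h, (hF L).zM⟩
  have ne : ∀ {L M : {L // S.inc x L}}, L ≠ M → L.1 ≠ M.1 := fun h e => h (Subtype.ext e)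
  have zero : ∀ g : Additive G, ((g.toMul : G) : S.Aut) = 1 → g = 0 := fun g h =>
    Additive.toMul.injective (Subtype.ext h)
  constructor
  · intro L g hg
    exact le L _ g.toMul.2 hg
  · intro L M N hLM hLN hMN a ha b hb hab
    apply zero
    have hab' : S.onLine ((a + b).toMul : G) (m N) = m N := hab
    by_cases h : S.onLine ((a + b).toMul : G) (m L) = m L
    · exact hT.k2 hy (hF L) (hF N) (ne hLN) (a + b).toMul.2 (le L _ (a + b).toMul.2 h) hab'
    · have h1 : ¬ S.inc (S.onPoint ((a + b).toMul : G) y) (m L) := fun e =>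
        h ((hT.line_iff hy (hF L) (a + b).toMul.2).mpr e)
      have h2 : S.onPoint (a.toMul : G) y = y :=
        hT.gq.proj_uniq h1 ((hT.line_iff hy (hF L) a.toMul.2).mp ha) (hF L).yM
          (col_on (a.toMul : G) ⟨m M, (hT.line_iff hy (hF M) b.toMul.2).mp hb, (hF M).yM⟩)
          ⟨m N, (hT.line_iff hy (hF N) (a + b).toMul.2).mp hab', (hF N).yM⟩
      have h3 := zero a (hT.eq_one hy a.toMul.2 h2)
      subst h3
      rw [zero_add] at hab' ⊢
      exact hT.k2 hy (hF M) (hF N) (ne hMN) b.toMul.2 (le M _ b.toMul.2 hb) hab'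
  · intro L M hLM g h1 h2
    exact zero g (hT.k2 hy (hF L) (hF M) (ne hLM) g.toMul.2 h1 h2)
  · intro L M hLM g
    have h1 := (inc_on (g.toMul : G) _ _).mpr (hF L).zL
    rw [hT.fixL g.toMul.2 L.2] at h1
    have h2 : S.onPoint (g.toMul : G) (w L) ≠ x := by
      intro e
      have := congrArg (S.onPoint ((g.toMul : G) : S.Aut)⁻¹) e
      rw [onPoint_inv, hT.fixx (G.inv_mem g.toMul.2)] at this
      exact (hF L).z_ne hy this
    obtain ⟨q, ⟨hq1, hq2⟩, -⟩ := hT.gq.projection _ _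
      ((hF M).not_on hT.gq hy L.2 (ne hLM) h1 h2)
    have hqz : q ≠ w M := by
      rintro rfl
      have h3 : ¬ S.inc (w M) L.1 := fun e =>
        (hF M).z_ne hy (hT.gq.meet_uniq (ne hLM) e L.2 (hF M).zL M.2)
      exact h2 (hT.gq.proj_uniq h3 h1 L.2 hq2.symm ⟨M.1, (hF M).zL, M.2⟩)
    obtain ⟨b, hb, e1, e2⟩ := hT.exists_move hy (hF M) hq1 hqz
    refine ⟨Additive.ofMul ⟨b, hb⟩, e2, ?_⟩
    have h4 := (inc_on b _ _).mpr (hF L).zL
    rw [hT.fixL hb L.2] at h4
    have h5 : S.onPoint b (w L) = S.onPoint (g.toMul : G) (w L) :=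
      hT.gq.proj_uniq (fun h => hT.aff hy hb ⟨L.1, L.2, h⟩) h4 h1
        (col_on b ⟨m L, (hF L).yM, (hF L).zM⟩) (by rw [e1]; exact hq2.symm)
    rw [sub_eq_neg_add]
    show S.onPoint (b⁻¹ * (g.toMul : G) : S.Aut) (w L) = w L
    rw [onPoint_mul, ← h5, onPoint_inv]
  · intro L g hg
    have h0 : ¬ S.Collinear (S.onPoint (g.toMul : G) y) (w L) := fun e =>
      hg ((hT.star_iff hy (hF L) g.toMul.2).mpr e)
    have h1 : ¬ S.inc (S.onPoint (g.toMul : G) y) (m L) := fun e => h0 ⟨m L, e, (hF L).zM⟩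
    obtain ⟨q, ⟨hq1, hq2⟩, -⟩ := hT.gq.projection _ _ h1
    have hqz : q ≠ w L := by
      rintro rfl
      exact h0 hq2
    obtain ⟨a, ha, e1, e2⟩ := hT.exists_move hy (hF L) hq1 hqz
    have h2 := col_on a⁻¹ hq2
    rw [← e1, onPoint_inv, ← onPoint_mul] at h2
    obtain ⟨N, hN1, hN2⟩ := h2
    obtain ⟨z, ⟨hz1, K, hK1, hK2⟩, -⟩ := hT.gq.projection x N (fun e => hy ⟨N, e, hN2⟩)
    have F : Flag S x y K N z := ⟨hK1, hN2, hK2, hz1⟩
    have e3 : N = m ⟨K, hK1⟩ := (F.uniq hT.gq hy (hF ⟨K, hK1⟩)).1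
    have hm : a⁻¹ * ((g.toMul : G) : S.Aut) ∈ G := G.mul_mem (G.inv_mem ha) g.toMul.2
    refine ⟨⟨K, hK1⟩, ?_, - Additive.ofMul ⟨a, ha⟩, (lineSub S G (m L)).neg_mem e2, ?_⟩
    · intro e
      rw [e] at e3
      rw [e3] at hN1
      have h3 := (inc_on a _ _).mpr hN1
      rw [e2, ← onPoint_mul, mul_inv_cancel_left] at h3
      exact h1 h3
    · rw [add_comm]
      show S.onLine (a⁻¹ * (g.toMul : G) : S.Aut) (m ⟨K, hK1⟩) = m ⟨K, hK1⟩
      rw [← e3]
      exact (hT.line_iff hy F hm).mpr hN1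
  · intro L
    have : ∃ q, S.inc q (m L) ∧ q ≠ w L ∧ q ≠ y := by
      obtain ⟨p, q, r, hpq, hpr, hqr, hp, hq, hr⟩ := hT.gq.threePoints (m L)
      by_contra hcon
      push Not at hcon
      by_cases h1 : p = w L
      · have a1 := hcon q hq (fun e => hpq (h1.trans e.symm))
        have a2 := hcon r hr (fun e => hpr (h1.trans e.symm))
        exact hqr (a1.trans a2.symm)
      · have a0 := hcon p hp h1
        have a1 : q = w L := by
          by_contra e
          exact hpq (a0.trans (hcon q hq e).symm)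
        have a2 : r = w L := by
          by_contra e
          exact hpr (a0.trans (hcon r hr e).symm)
        exact hqr (a1.trans a2.symm)
    obtain ⟨q, h1, h2, h3⟩ := this
    obtain ⟨a, ha, e1, e2⟩ := hT.exists_move hy (hF L) h1 h2
    refine ⟨Additive.ofMul ⟨a, ha⟩, e2, fun e => h3 ?_⟩
    have : a = 1 := congrArg (fun g : Additive G => ((g.toMul : G) : S.Aut)) e
    rw [← e1, this, onPoint_one]
  · obtain ⟨L, M, N, h1, h2, h3, hL, hM, hN⟩ := hT.gq.threeLines x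
    exact ⟨⟨L, hL⟩, ⟨M, hM⟩, ⟨N, hN⟩, fun e => h1 (congrArg Subtype.val e),
      fun e => h2 (congrArg Subtype.val e), fun e => h3 (congrArg Subtype.val e)⟩

theorem IsTGQ.mem_kernel_iff (hT : S.IsTGQ x G) (hy : ¬ S.Collinear x y)
    (m : {L // S.inc x L} → S.Line) (w : {L // S.inc x L} → S.Point)
    (hF : ∀ L, Flag S x y L.1 (m L) (w L)) (α : G →* G) :
    letI := hT.commGroup
    α ∈ S.kernel x y G ↔ APres (H := Additive G) (fun L => lineSub S G (m L))
      (fun L => pointSub S G (w L)) (MonoidHom.toAdditive α) := by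
  letI := hT.commGroup
  constructor
  · intro h
    exact ⟨fun L g hg => (h L.1 (m L) (w L) L.2 (hF L).yM (hF L).zL (hF L).zM).1 g.toMul hg,
      fun L g hg => (h L.1 (m L) (w L) L.2 (hF L).yM (hF L).zL (hF L).zM).2 g.toMul hg⟩
  · intro h L M z h1 h2 h3 h4
    obtain ⟨rfl, rfl⟩ := Flag.uniq hT.gq hy ⟨h1, h2, h3, h4⟩ (hF ⟨L, h1⟩)
    exact ⟨fun g hg => h.h1 ⟨L, h1⟩ (Additive.ofMul g) hg,
      fun g hg => h.h2 ⟨L, h1⟩ (Additive.ofMul g) hg⟩

end Geometry

end Pool.Agent.Lib.MP_0f105f_co
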