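import Mathlib

/-!
A transfinite greedy construction: tasks are handled one after the other, each adding finitely
many elements to a set of size below `κ`.
-/

set_option autoImplicit false

namespace Pool.Agent.Lib.MP_0f105f_co

open Cardinal

theorem small_biUnion {ι X : Type} {κ : Cardinal} (hκ : ℵ₀ ≤ κ) (s : Set ι) (D : ι → Set X)
    (hs : Cardinal.mk s < κ) (hD : ∀ i ∈ s, (D i).Finite) :
    Cardinal.mk (⋃ i ∈ s, D i : Set X) < κ := by
  rcases hκ.eq_or_lt with h | h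
  · subst h
    have hf : s.Finite := Cardinal.lt_aleph0_iff_set_finite.mp hs
    exact Cardinal.lt_aleph0_iff_set_finite.mpr (hf.biUnion hD)
  · refine (Cardinal.mk_biUnion_le D s).trans_lt (Cardinal.mul_lt_of_lt hκ hs ?_)
    refine lt_of_le_of_lt ?_ h
    apply ciSup_le'
    intro i
    exact (Cardinal.lt_aleph0_iff_set_finite.mpr (hD i.1 i.2)).le

theorem small_union {X : Type} {κ : Cardinal} (hκ : ℵ₀ ≤ κ) {s t : Set X}
    (hs : Cardinal.mk s < κ) (ht : Cardinal.mk t < κ) : Cardinal.mk (s ∪ t : Set X) < κ :=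
  (Cardinal.mk_union_le s t).trans_lt (Cardinal.add_lt_of_lt hκ hs ht)

theorem small_finite {X : Type} {κ : Cardinal} (hκ : ℵ₀ ≤ κ) {s : Set X} (hs : s.Finite) :
    Cardinal.mk s < κ :=
  (Cardinal.lt_aleph0_iff_set_finite.mpr hs).trans_le hκ

theorem small_prod {X : Type} {κ : Cardinal} (hκ : ℵ₀ ≤ κ) {s : Set X}
    (hs : Cardinal.mk s < κ) : Cardinal.mk (s ×ˢ s : Set (X × X)) < κ := by
  rw [Cardinal.mk_congr (Equiv.Set.prod s s), Cardinal.mk_prod, Cardinal.lift_id]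
  exact Cardinal.mul_lt_of_lt hκ hs hs

theorem small_ext {X : Type} {κ : Cardinal} (hκ : ℵ₀ ≤ κ) {s t : Set X}
    (hs : Cardinal.mk s < κ) (ht : (t \ s).Finite) : Cardinal.mk t < κ := by
  refine lt_of_le_of_lt (Cardinal.mk_le_mk_of_subset (t := s ∪ (t \ s)) ?_)
    (small_union hκ hs (small_finite hκ ht))
  intro x hx
  by_cases h : x ∈ s
  · exact Or.inl h
  · exact Or.inr ⟨hx, h⟩

theorem exists_notMem_small {T : Type} {s : Set T} (hs : Cardinal.mk s < Cardinal.mk T) :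
    ∃ t, t ∉ s := by
  by_contra h
  push Not at h
  have : s = Set.univ := Set.eq_univ_of_forall h
  rw [this, Cardinal.mk_univ] at hs
  exact lt_irrefl _ hs

theorem exists_closed {X J : Type} [Nonempty J] (κ : Cardinal) (hκ : ℵ₀ ≤ κ)
    (hJ : Cardinal.mk J ≤ κ) (Good : Set X → Prop) (Sat : J → Set X → Prop)
    (hloc : ∀ s : Set X, (∀ p ∈ s, ∀ q ∈ s, ∀ r ∈ s, ∃ u, Good u ∧ p ∈ u ∧ q ∈ u ∧ r ∈ u) →
      Good s)
    (hmono : ∀ j s t, s ⊆ t → Sat j s → Sat j t)
    (hext : ∀ s, Good s → Cardinal.mk s < κ → ∀ j,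
      ∃ t, s ⊆ t ∧ (t \ s).Finite ∧ Good t ∧ Sat j t) :
    ∃ W, Good W ∧ ∀ j, Sat j W := by
  classical
  have hO : Cardinal.mk J ≤ Cardinal.mk κ.ord.ToType := by simpa using hJ
  obtain ⟨g⟩ := (Cardinal.le_def _ _).mp hO
  let e : κ.ord.ToType → J := Function.invFun g
  have he : ∀ j, e (g j) = j := Function.leftInverse_invFun g.injective
  have hstep : ∀ (s : Set X) (j : J), ∃ t, s ⊆ t ∧ (t \ s).Finite ∧
      (Good s → Cardinal.mk s < κ → Good t ∧ Sat j t) := by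
    intro s j
    by_cases h : Good s ∧ Cardinal.mk s < κ
    · obtain ⟨t, h1, h2, h3⟩ := hext s h.1 h.2 j
      exact ⟨t, h1, h2, fun _ _ => h3⟩
    · exact ⟨s, subset_rfl, by simp, fun h1 h2 => absurd ⟨h1, h2⟩ h⟩
  choose step hs1 hs2 hs3 using hstep
  let F : κ.ord.ToType → Set X :=
    WellFounded.fix (wellFounded_lt (α := κ.ord.ToType))
      (fun i rec => step (⋃ k, ⋃ h : k < i, rec k h) (e i))
  have hF : ∀ i, F i = step (⋃ k, ⋃ _ : k < i, F k) (e i) := fun i =>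
    WellFounded.fix_eq _ _ i
  have sub : ∀ i, (⋃ k, ⋃ _ : k < i, F k) ⊆ F i := fun i => by
    conv_rhs => rw [hF i]
    exact hs1 _ _
  have fin : ∀ i, (F i \ ⋃ k, ⋃ _ : k < i, F k).Finite := fun i => by
    have := hs2 (⋃ k, ⋃ _ : k < i, F k) (e i)
    rwa [← hF i] at this
  have mono : ∀ {k i}, k ≤ i → F k ⊆ F i := by
    intro k i h
    rcases h.eq_or_lt with h | h
    · rw [h]
    · exact fun x hx => sub i (Set.mem_iUnion₂.mpr ⟨k, h, hx⟩)
  have cov : ∀ i, ∀ x ∈ F i, ∃ k, k ≤ i ∧ x ∈ F k \ ⋃ l, ⋃ _ : l < k, F l := by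
    intro i
    induction i using WellFoundedLT.induction with
    | ind i ih =>
      intro x hx
      by_cases h : x ∈ ⋃ l, ⋃ _ : l < i, F l
      · obtain ⟨l, hl, hx'⟩ := Set.mem_iUnion₂.mp h
        obtain ⟨k, hk, hx''⟩ := ih l hl x hx'
        exact ⟨k, hk.trans hl.le, hx''⟩
      · exact ⟨i, le_rfl, hx, h⟩
  have small : ∀ i, Cardinal.mk (⋃ k, ⋃ _ : k < i, F k : Set X) < κ := by
    intro i
    refine lt_of_le_of_lt (Cardinal.mk_le_mk_of_subset ?_)
      (small_biUnion hκ (Set.Iio i) (fun k => F k \ ⋃ l, ⋃ _ : l < k, F l)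
        (Cardinal.mk_Iio_toType_ord_lt i) (fun k _ => fin k))
    intro x hx
    obtain ⟨l, hl, hx'⟩ := Set.mem_iUnion₂.mp hx
    obtain ⟨k, hk, hx''⟩ := cov l x hx'
    exact Set.mem_iUnion₂.mpr ⟨k, hk.trans_lt hl, hx''⟩
  have good : ∀ i, Good (F i) ∧ Sat (e i) (F i) := by
    intro i
    induction i using WellFoundedLT.induction with
    | ind i ih =>
      rw [hF i]
      apply hs3 _ _ _ (small i)
      apply hloc
      intro p hp q hq r hr
      obtain ⟨a, ha, hp⟩ := Set.mem_iUnion₂.mp hp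
      obtain ⟨b, hb, hq⟩ := Set.mem_iUnion₂.mp hq
      obtain ⟨c, hc, hr⟩ := Set.mem_iUnion₂.mp hr
      exact ⟨F (max a (max b c)), (ih _ (max_lt ha (max_lt hb hc))).1,
        mono (le_max_left _ _) hp, mono ((le_max_left _ _).trans (le_max_right _ _)) hq,
        mono ((le_max_right _ _).trans (le_max_right _ _)) hr⟩
  refine ⟨⋃ i, F i, ?_, fun j => ?_⟩
  · apply hloc
    intro p hp q hq r hr
    obtain ⟨a, hp⟩ := Set.mem_iUnion.mp hp
    obtain ⟨b, hq⟩ := Set.mem_iUnion.mp hq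
    obtain ⟨c, hr⟩ := Set.mem_iUnion.mp hr
    exact ⟨F (max a (max b c)), (good _).1,
      mono (le_max_left _ _) hp, mono ((le_max_left _ _).trans (le_max_right _ _)) hq,
      mono ((le_max_right _ _).trans (le_max_right _ _)) hr⟩
  · have := (good (g j)).2
    rw [he] at this
    exact hmono j _ _ (Set.subset_iUnion F (g j)) this

end Pool.Agent.Lib.MP_0f105f_co
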