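import Mathlib
import Pool.Agent.Lib.MP_0f105f_co.KRec

/-!
Greedy construction of a generic family of linear maps forming a generalized oval.
-/

set_option autoImplicit false

namespace Pool.Agent.Lib.MP_0f105f_co

open Cardinal

/-- the data for the construction -/
structure Dat (U V T : Type) [Ring U] [AddCommGroup V] [Module U V] where
  /-- the integral elements -/
  A : AddSubgroup V
  /-- the slopes -/
  σ : T → V →ₗ[U] V
  /-- the inverses of the differences of slopes -/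
  τ : T → T → V →ₗ[U] V
  /-- the base element -/
  e : V
  σA : ∀ t, ∀ v ∈ A, σ t v ∈ A
  τA : ∀ s t, ∀ v ∈ A, τ s t v ∈ A
  inv1 : ∀ s t, s ≠ t → ∀ v, σ s (τ s t v) - σ t (τ s t v) = v
  inv2 : ∀ s t, s ≠ t → ∀ v, τ s t (σ s v - σ t v) = v
  coord : ∀ x ∈ A, x ≠ 0 → ∃ φ : V →ₗ[U] U, φ x = 1 ∧ ∀ y ∈ A, φ y = 0 ∨ IsUnit (φ y)
  eA : e ∈ A
  e_ne : e ≠ 0
  card : Cardinal.mk V ≤ Cardinal.mk T
  inf : ℵ₀ ≤ Cardinal.mk T

variable {U V T : Type} [Ring U] [AddCommGroup V] [Module U V]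

/-- generalized arcs -/
structure Dat.Good (D : Dat U V T) (s : Set (T × (V →ₗ[U] (T →₀ V)))) : Prop where
  supp : ∀ p ∈ s, {n | ∃ v, p.2 v n ≠ 0}.Finite
  fst : ∀ p ∈ s, ∀ q ∈ s, p.1 = q.1 → p = q
  two : ∀ p ∈ s, ∀ q ∈ s, p ≠ q → ∀ v ∈ D.A, p.2 v = q.2 v → v = 0
  three : ∀ p ∈ s, ∀ q ∈ s, ∀ r ∈ s, p ≠ q → p ≠ r → q ≠ r → ∀ u ∈ D.A, ∀ v ∈ D.A, ∀ w ∈ D.A,
    u + v + w = 0 → D.σ p.1 u + D.σ q.1 v + D.σ r.1 w = 0 → p.2 u + q.2 v + r.2 w = 0 → u = 0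

theorem Dat.σ_inj (D : Dat U V T) {s t : T} {x : V} (hx : x ≠ 0) (h : D.σ s x = D.σ t x) :
    s = t := by
  by_contra hne
  apply hx
  rw [← D.inv2 s t hne x, h, sub_self, map_zero]

theorem Dat.ext1 (D : Dat U V T) {s : Set (T × (V →ₗ[U] (T →₀ V)))} (hs : D.Good s)
    (hsm : Cardinal.mk s < Cardinal.mk T) (t : T) (ht : ∀ p ∈ s, p.1 ≠ t) (x : V) (hxA : x ∈ D.A)
    (hx : x ≠ 0) (z : T →₀ V) (ha : ∀ p ∈ s, p.2 x ≠ z)
    (hb : ∀ p ∈ s, ∀ q ∈ s, p ≠ q → ∀ u ∈ D.A, ∀ v ∈ D.A, u + v = x →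
      D.σ p.1 u + D.σ q.1 v = D.σ t x → p.2 u + q.2 v ≠ z) (x' : V) (z' : T →₀ V) :
    ∃ h : V →ₗ[U] (T →₀ V), D.Good (insert (t, h) s) ∧ h x = z ∧
      ((∀ u : U, x' ≠ u • x) → h x' ≠ z') := by
  classical
  obtain ⟨n, hn⟩ := exists_notMem_small (small_union D.inf
    (small_biUnion D.inf s (fun p => {n | ∃ v, p.2 v n ≠ 0}) hsm hs.supp)
    (small_finite D.inf (z.support.finite_toSet.union z'.support.finite_toSet)))
  simp only [Set.mem_union, Set.mem_iUnion, Set.mem_ofPred_eq, not_or, not_exists, ne_eq,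
    not_not, Finset.mem_coe, Finsupp.mem_support_iff] at hn
  obtain ⟨hn1, hn2, hn3⟩ := hn
  obtain ⟨φ, hφ1, hφ2⟩ := D.coord x hxA hx
  let h : V →ₗ[U] (T →₀ V) :=
    φ.smulRight z + (Finsupp.lsingle n) ∘ₗ (LinearMap.id - φ.smulRight x)
  have hh : ∀ v, h v = φ v • z + Finsupp.single n (v - φ v • x) := fun v => rfl
  have hhn : ∀ v, h v n = v - φ v • x := fun v => by
    rw [hh]; simp [hn2]
  have key : ∀ c : V →ₗ[U] (T →₀ V), (∀ v, c v n = 0) → c x ≠ z → ∀ w ∈ D.A, h w = c w →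
      w = 0 := by
    intro c hc1 hc2 w hw hwc
    have e1 : w - φ w • x = 0 := by rw [← hhn, hwc, hc1]
    have e2 : w = φ w • x := sub_eq_zero.mp e1
    have e3 : φ w • z = φ w • c x := by
      rw [← map_smul, ← e2, ← hwc, hh, e1]; simp
    rcases hφ2 w hw with h0 | hu
    · rw [e2, h0, zero_smul]
    · exact absurd (hu.smul_left_cancel.mp e3).symm hc2
  have tri : ∀ p ∈ s, ∀ q ∈ s, p ≠ q → ∀ u ∈ D.A, ∀ v ∈ D.A, ∀ w ∈ D.A, u + v + w = 0 →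
      D.σ p.1 u + D.σ q.1 v + D.σ t w = 0 → p.2 u + q.2 v + h w = 0 →
      u = 0 ∧ v = 0 ∧ w = 0 := by
    intro p hp q hq hpq u _ v _ w hw e1 e2 e3
    have hpq1 : p.1 ≠ q.1 := fun h => hpq (hs.fst p hp q hq h)
    let a : V →ₗ[U] V := D.τ p.1 q.1 ∘ₗ (D.σ t - D.σ q.1)
    have ha' : ∀ y, a y = D.τ p.1 q.1 (D.σ t y - D.σ q.1 y) := fun y => rfl
    have haA : ∀ y ∈ D.A, a y ∈ D.A := fun y hy =>
      D.τA _ _ _ (D.A.sub_mem (D.σA _ _ hy) (D.σA _ _ hy))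
    have hv : v = -u - w := by rw [← sub_eq_zero, ← e1]; abel
    have hu : u = - a w := by
      rw [ha', ← map_neg, ← D.inv2 p.1 q.1 hpq1 u]
      congr 1
      rw [hv, map_sub, map_neg] at e2
      rw [← sub_eq_zero, ← e2]; abel
    have hw0 : w = 0 := by
      apply key (p.2 ∘ₗ a + q.2 ∘ₗ (LinearMap.id - a)) _ _ w hw
      · show h w = p.2 (a w) + q.2 (w - a w)
        rw [hv, hu] at e3
        simp only [map_sub, map_neg, neg_neg] at e3 ⊢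
        rw [← sub_eq_zero, ← e3]; abel
      · intro y
        show (p.2 (a y) + q.2 (y - a y)) n = 0
        rw [Finsupp.add_apply, hn1 p hp, hn1 q hq, add_zero]
      · show p.2 (a x) + q.2 (x - a x) ≠ z
        apply hb p hp q hq hpq _ (haA x hxA) _ (D.A.sub_mem hxA (haA x hxA)) (by abel)
        have := D.inv1 p.1 q.1 hpq1 (D.σ t x - D.σ q.1 x)
        rw [← ha'] at this
        rw [map_sub, ← sub_eq_zero, ← sub_eq_zero.mpr this]; abel
    have hu0 : u = 0 := by rw [hu, hw0, map_zero, neg_zero]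
    exact ⟨hu0, by rw [hv, hu0, hw0]; simp, hw0⟩
  refine ⟨h, ⟨?_, ?_, ?_, ?_⟩, ?_, ?_⟩
  · rintro p (rfl | hp)
    · apply (z.support.finite_toSet.insert n).subset
      rintro m ⟨v, hv⟩
      by_contra hm
      simp only [Set.mem_insert_iff, Finset.mem_coe, Finsupp.mem_support_iff, not_or, ne_eq,
        not_not] at hm
      apply hv
      show h v m = 0
      rw [hh]
      simp [hm.2, Finsupp.single_eq_of_ne hm.1]
    · exact hs.supp p hp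
  · rintro p (rfl | hp) q (rfl | hq) h1
    · rfl
    · exact absurd h1.symm (ht q hq)
    · exact absurd h1 (ht p hp)
    · exact hs.fst p hp q hq h1
  · rintro p (rfl | hp) q (rfl | hq) hpq v hv h1
    · exact absurd rfl hpq
    · exact key q.2 (hn1 q hq) (ha q hq) v hv h1
    · exact key p.2 (hn1 p hp) (ha p hp) v hv h1.symm
    · exact hs.two p hp q hq hpq v hv h1
  · rintro p (rfl | hp) q (rfl | hq) r (rfl | hr) hpq hpr hqr u hu v hv w hw e1 e2 e3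
    · exact absurd rfl hpq
    · exact absurd rfl hpq
    · exact absurd rfl hpr
    · exact (tri q hq r hr hqr v hv w hw u hu (by rw [← e1]; abel) (by rw [← e2]; abel)
        (by rw [← e3]; abel)).2.2
    · exact absurd rfl hqr
    · exact (tri p hp r hr hpr u hu w hw v hv (by rw [← e1]; abel) (by rw [← e2]; abel)
        (by rw [← e3]; abel)).1
    · exact (tri p hp q hq hpq u hu v hv w hw e1 e2 e3).1
    · exact hs.three p hp q hq r hr hpq hpr hqr u hu v hv w hw e1 e2 e3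
  · rw [hh, hφ1]; simp
  · intro hind h1
    apply hind (φ x')
    rw [← sub_eq_zero, ← hhn, h1, hn3]

theorem Dat.extInf (D : Dat U V T) {s : Set (T × (V →ₗ[U] (T →₀ V)))} (hs : D.Good s)
    (hsm : Cardinal.mk s < Cardinal.mk T) (x : V) (hxA : x ∈ D.A)
    (hx : x ≠ 0) (z : T →₀ V) (ha : ∀ p ∈ s, p.2 x ≠ z) (x' : V) (z' : T →₀ V) :
    ∃ p, D.Good (insert p s) ∧ p.2 x = z ∧ ((∀ u : U, x' ≠ u • x) → p.2 x' ≠ z') := by
  obtain ⟨t, ht⟩ := exists_notMem_small (small_union D.inf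
    ((Cardinal.mk_image_le (f := Prod.fst) (s := s)).trans_lt hsm)
    (small_biUnion D.inf (s ×ˢ s) (fun pq => {t | pq.1 ≠ pq.2 ∧ ∃ u ∈ D.A, ∃ v ∈ D.A, u + v = x ∧
      D.σ pq.1.1 u + D.σ pq.2.1 v = D.σ t x ∧ pq.1.2 u + pq.2.2 v = z}) (small_prod D.inf hsm)
      (by
        rintro ⟨p, q⟩ ⟨hp, hq⟩
        apply Set.Subsingleton.finite
        rintro t ⟨hpq, u, hu, v, hv, e1, e2, e3⟩ t' ⟨-, u', hu', v', hv', e1', e2', e3'⟩
        simp only at hp hq hpq e2 e3 e2' e3'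
        have hvv : v' - v = u - u' := by
          rw [← sub_eq_zero, ← sub_eq_zero.mpr (e1'.trans e1.symm)]; abel
        have h0 : u - u' = 0 := by
          apply hs.two p hp q hq hpq _ (D.A.sub_mem hu hu')
          conv_rhs => rw [← hvv]
          rw [map_sub, map_sub, ← sub_eq_zero, ← sub_eq_zero.mpr (e3.trans e3'.symm)]; abel
        rw [h0] at hvv
        rw [sub_eq_zero] at h0 hvv
        subst h0 hvv
        exact D.σ_inj hx (e2.symm.trans e2'))))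
  simp only [Set.mem_union, Set.mem_image, Set.mem_iUnion, Set.mem_ofPred_eq, not_or, not_exists,
    not_and] at ht
  obtain ⟨h, h1, h2⟩ := D.ext1 hs hsm t (fun p hp => ht.1 p hp) x hxA hx z ha
    (fun p hp q hq hpq u hu v hv e1 e2 => ht.2 (p, q) ⟨hp, hq⟩ hpq u hu v hv e1 e2) x' z'
  exact ⟨(t, h), h1, h2⟩

theorem Dat.extSlope (D : Dat U V T) {s : Set (T × (V →ₗ[U] (T →₀ V)))} (hs : D.Good s)
    (hsm : Cardinal.mk s < Cardinal.mk T) (p : T × (V →ₗ[U] (T →₀ V))) (hp : p ∈ s)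
    (w : V) (hwA : w ∈ D.A) (hw : w ≠ 0) (m : T →₀ V) (hm : m ≠ 0)
    (hno : ∀ q ∈ s, q ≠ p → ∀ v ∈ D.A, D.σ q.1 v - D.σ p.1 v = w → q.2 v - p.2 v ≠ m) :
    ∃ q, D.Good (insert q s) ∧ q ≠ p ∧ ∃ v ∈ D.A, D.σ q.1 v - D.σ p.1 v = w ∧
      q.2 v - p.2 v = m := by
  have same : ∀ t t', t ≠ p.1 → t' ≠ p.1 → D.τ t p.1 w = D.τ t' p.1 w → t = t' := by
    intro t t' ht ht' h
    have e1 := D.inv1 t p.1 ht w
    have e2 := D.inv1 t' p.1 ht' w
    rw [← h] at e2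
    apply D.σ_inj (x := D.τ t p.1 w)
    · intro h0
      rw [h0] at e1
      exact hw (by rw [← e1]; simp)
    · exact sub_left_injective (e1.trans e2.symm)
  obtain ⟨t, ht⟩ := exists_notMem_small (small_union D.inf (small_union D.inf
    ((Cardinal.mk_image_le (f := Prod.fst) (s := s)).trans_lt hsm)
    (small_biUnion D.inf s (fun q => {t | t ≠ p.1 ∧
      q.2 (D.τ t p.1 w) = p.2 (D.τ t p.1 w) + m}) hsm
      (by
        intro q hq
        apply Set.Subsingleton.finite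
        rintro t ⟨ht, e1⟩ t' ⟨ht', e1'⟩
        have hqp : q ≠ p := by
          rintro rfl
          exact hm (by simpa using e1)
        apply same t t' ht ht'
        rw [← sub_eq_zero]
        apply hs.two q hq p hp hqp _ (D.A.sub_mem (D.τA _ _ _ hwA) (D.τA _ _ _ hwA))
        rw [map_sub, map_sub, e1, e1']; abel)))
    (small_biUnion D.inf (s ×ˢ s) (fun qr => {t | t ≠ p.1 ∧ qr.1 ≠ qr.2 ∧ ∃ u ∈ D.A, ∃ v ∈ D.A,
      u + v = D.τ t p.1 w ∧ D.σ qr.1.1 u + D.σ qr.2.1 v = D.σ t (D.τ t p.1 w) ∧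
      qr.1.2 u + qr.2.2 v = p.2 (D.τ t p.1 w) + m}) (small_prod D.inf hsm)
      (by
        rintro ⟨q, r⟩ ⟨hq, hr⟩
        apply Set.Subsingleton.finite
        rintro t ⟨ht, hqr, u, hu, v, hv, e1, e2, e3⟩ t' ⟨ht', -, u', hu', v', hv', e1', e2', e3'⟩
        simp only at hq hr hqr e2 e3 e2' e3'
        have i1 := D.inv1 t p.1 ht w
        have i2 := D.inv1 t' p.1 ht' w
        have hqp : q ≠ p := by
          rintro rfl
          apply hno r hr hqr.symm v hv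
          · rw [← e2, ← e1, map_add] at i1
            rw [← i1]; abel
          · rw [← e1, map_add] at e3
            rw [← sub_eq_zero, ← sub_eq_zero.mpr e3]; abel
        have hrp : r ≠ p := by
          rintro rfl
          apply hno q hq hqr u hu
          · rw [← e2, ← e1, map_add] at i1
            rw [← i1]; abel
          · rw [← e1, map_add] at e3
            rw [← sub_eq_zero, ← sub_eq_zero.mpr e3]; abel
        apply same t t' ht ht'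
        symm
        rw [← sub_eq_zero]
        apply hs.three p hp q hq r hr hqp.symm hrp.symm hqr _
          (D.A.sub_mem (D.τA _ _ _ hwA) (D.τA _ _ _ hwA)) (u - u') (D.A.sub_mem hu hu') (v - v')
          (D.A.sub_mem hv hv')
        · rw [← e1, ← e1']; abel
        · rw [← e2] at i1
          rw [← e2'] at i2
          simp only [map_sub]
          rw [← sub_eq_zero.mpr (i1.trans i2.symm)]; abel
        · simp only [map_sub]
          rw [← sub_eq_zero.mpr ((sub_eq_zero.mpr e3).trans (sub_eq_zero.mpr e3').symm)]; abel)))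
  simp only [Set.mem_union, Set.mem_image, Set.mem_iUnion, Set.mem_ofPred_eq, not_or, not_exists,
    not_and] at ht
  obtain ⟨⟨t1, t2⟩, t3⟩ := ht
  have htp : t ≠ p.1 := fun h => t1 p hp h.symm
  have i1 := D.inv1 t p.1 htp w
  obtain ⟨h, h1, h2, -⟩ := D.ext1 hs hsm t (fun p hp => t1 p hp) (D.τ t p.1 w) (D.τA _ _ _ hwA)
    (by
      intro h0
      rw [h0] at i1
      exact hw (by rw [← i1]; simp)) (p.2 (D.τ t p.1 w) + m) (fun q hq => t2 q hq htp)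
    (fun q hq r hr hqr u hu v hv e1 e2 => t3 (q, r) ⟨hq, hr⟩ htp hqr u hu v hv e1 e2) 0 0
  refine ⟨(t, h), h1, fun h0 => htp (congrArg Prod.fst h0), D.τ t p.1 w, D.τA _ _ _ hwA, i1, ?_⟩
  simp only [h2]; abel

/-- `t` is a good finite extension of `s` -/
def Dat.Ext (D : Dat U V T) (s t : Set (T × (V →ₗ[U] (T →₀ V)))) : Prop :=
  s ⊆ t ∧ (t \ s).Finite ∧ D.Good t

theorem Dat.Ext.trans {D : Dat U V T} {s t u : Set (T × (V →ₗ[U] (T →₀ V)))} (h1 : D.Ext s t)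
    (h2 : D.Ext t u) : D.Ext s u := by
  refine ⟨h1.1.trans h2.1, (h1.2.1.union h2.2.1).subset ?_, h2.2.2⟩
  intro x hx
  by_cases h : x ∈ t
  · exact Or.inl ⟨h, hx.2⟩
  · exact Or.inr ⟨hx.1, h⟩

theorem Dat.ext_insert {D : Dat U V T} {s : Set (T × (V →ₗ[U] (T →₀ V)))} {p}
    (h : D.Good (insert p s)) : D.Ext s (insert p s) := by
  refine ⟨Set.subset_insert _ _, (Set.finite_singleton p).subset ?_, h⟩
  rintro x ⟨rfl | hx, hx'⟩
  · rfl
  · exact absurd hx hx'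

theorem Dat.ext_refl {D : Dat U V T} {s : Set (T × (V →ₗ[U] (T →₀ V)))} (h : D.Good s) :
    D.Ext s s := ⟨subset_rfl, by simp, h⟩

theorem Dat.cov (D : Dat U V T) {s : Set (T × (V →ₗ[U] (T →₀ V)))} (hs : D.Good s)
    (hsm : Cardinal.mk s < Cardinal.mk T) (x : V) (z : T →₀ V) :
    ∃ t, D.Ext s t ∧ (x ∈ D.A → x ≠ 0 → ∃ p ∈ t, p.2 x = z) := by
  by_cases h : x ∈ D.A ∧ x ≠ 0 ∧ ∀ p ∈ s, p.2 x ≠ z
  · obtain ⟨p, h1, h2, -⟩ := D.extInf hs hsm x h.1 h.2.1 z h.2.2 0 0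
    exact ⟨_, Dat.ext_insert h1, fun _ _ => ⟨p, Set.mem_insert _ _, h2⟩⟩
  · refine ⟨s, Dat.ext_refl hs, fun h1 h2 => ?_⟩
    by_contra h3
    push Not at h3
    exact h ⟨h1, h2, h3⟩

theorem Dat.slope (D : Dat U V T) {s : Set (T × (V →ₗ[U] (T →₀ V)))} (hs : D.Good s)
    (hsm : Cardinal.mk s < Cardinal.mk T) (w : V) (d m : T →₀ V) :
    ∃ t, D.Ext s t ∧ (w ∈ D.A → w ≠ 0 → m ≠ 0 → ∃ p ∈ t, p.2 D.e = d ∧ ∃ q ∈ t, q ≠ p ∧
      ∃ v ∈ D.A, D.σ q.1 v - D.σ p.1 v = w ∧ q.2 v - p.2 v = m) := by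
  obtain ⟨t, ht, h⟩ := D.cov hs hsm D.e d
  obtain ⟨p, hp, hd⟩ := h D.eA D.e_ne
  by_cases h : w ∈ D.A ∧ w ≠ 0 ∧ m ≠ 0 ∧
      ∀ q ∈ t, q ≠ p → ∀ v ∈ D.A, D.σ q.1 v - D.σ p.1 v = w → q.2 v - p.2 v ≠ m
  · obtain ⟨q, h1, h2⟩ := D.extSlope ht.2.2 (small_ext D.inf hsm ht.2.1) p hp w h.1 h.2.1 m
      h.2.2.1 h.2.2.2
    exact ⟨_, ht.trans (Dat.ext_insert h1), fun _ _ _ =>
      ⟨p, Set.mem_insert_of_mem _ hp, hd, q, Set.mem_insert _ _, h2⟩⟩
  · refine ⟨t, ht, fun h1 h2 h3 => ⟨p, hp, hd, ?_⟩⟩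
    by_contra h4
    push Not at h4
    exact h ⟨h1, h2, h3, h4⟩

theorem Dat.gen (D : Dat U V T) {s : Set (T × (V →ₗ[U] (T →₀ V)))} (hs : D.Good s)
    (hsm : Cardinal.mk s < Cardinal.mk T) (x : V) :
    ∃ t, D.Ext s t ∧ ((∀ u : U, x ≠ u • D.e) → ∃ p ∈ t, ∃ q ∈ t, ∃ r ∈ t, ∃ o ∈ t,
      p.2 D.e + q.2 D.e = r.2 D.e + o.2 D.e ∧ p.2 x + q.2 x ≠ r.2 x + o.2 x) := by
  classical
  obtain ⟨n0, -⟩ := exists_notMem_small (small_finite D.inf (Set.finite_empty (α := T)))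
  obtain ⟨t1, ht1, h1⟩ := D.cov hs hsm D.e 0
  obtain ⟨o, ho, hoe⟩ := h1 D.eA D.e_ne
  have sm1 := small_ext D.inf hsm ht1.2.1
  obtain ⟨t2, ht2, h2⟩ := D.cov ht1.2.2 sm1 D.e (Finsupp.single n0 D.e)
  obtain ⟨p, hp, hpe⟩ := h2 D.eA D.e_ne
  have sm2 := small_ext D.inf sm1 ht2.2.1
  obtain ⟨n, hn⟩ := exists_notMem_small (small_union D.inf
    (small_biUnion D.inf t2 (fun q => {n | q.2 D.e = Finsupp.single n D.e}) sm2
      (fun q _ => Set.Subsingleton.finite fun a ha b hb =>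
        Finsupp.single_left_injective D.e_ne (Eq.trans (Eq.symm ha) hb)))
    (small_biUnion D.inf t2 (fun q => {n | q.2 D.e = Finsupp.single n0 D.e + Finsupp.single n D.e})
      sm2 (fun q _ => Set.Subsingleton.finite fun a ha b hb =>
        Finsupp.single_left_injective D.e_ne (add_left_cancel (Eq.trans (Eq.symm ha) hb)))))
  simp only [Set.mem_union, Set.mem_iUnion, Set.mem_ofPred_eq, not_or, not_exists] at hn
  obtain ⟨q, hq1, hq2, -⟩ := D.extInf ht2.2.2 sm2 D.e D.eA D.e_ne (Finsupp.single n D.e)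
    (fun q hq => hn.1 q hq) 0 0
  have ht3 := Dat.ext_insert hq1
  have sm3 := small_ext D.inf sm2 ht3.2.1
  obtain ⟨r, hr1, hr2, hr3⟩ := D.extInf hq1 sm3 D.e D.eA D.e_ne
    (Finsupp.single n0 D.e + Finsupp.single n D.e)
    (by
      rintro r (rfl | hr)
      · rw [hq2]
        intro h
        exact D.e_ne (by simpa using h.symm)
      · exact hn.2 r hr) x (p.2 x + q.2 x - o.2 x)
  refine ⟨_, ((ht1.trans ht2).trans ht3).trans (Dat.ext_insert hr1), fun hind =>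
    ⟨p, Or.inr (Or.inr hp), q, Or.inr (Or.inl rfl), r, Or.inl rfl, o,
      Or.inr (Or.inr (ht2.1 ho)), ?_, ?_⟩⟩
  · rw [hpe, hq2, hr2, hoe, add_zero]
  · intro h
    apply hr3 hind
    rw [h]; abel

theorem Dat.exists_family (D : Dat U V T) : ∃ s : Set (T × (V →ₗ[U] (T →₀ V))), D.Good s ∧
    (∀ x ∈ D.A, x ≠ 0 → ∀ z, ∃ p ∈ s, p.2 x = z) ∧
    (∀ p ∈ s, ∀ w ∈ D.A, w ≠ 0 → ∀ m, m ≠ 0 → ∃ q ∈ s, q ≠ p ∧
      ∃ v ∈ D.A, D.σ q.1 v - D.σ p.1 v = w ∧ q.2 v - p.2 v = m) ∧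
    ∀ x, (∀ u : U, x ≠ u • D.e) → ∃ p ∈ s, ∃ q ∈ s, ∃ r ∈ s, ∃ o ∈ s,
      p.2 D.e + q.2 D.e = r.2 D.e + o.2 D.e ∧ p.2 x + q.2 x ≠ r.2 x + o.2 x := by
  have : Infinite T := Cardinal.infinite_iff.mpr D.inf
  have : Nontrivial V := ⟨⟨D.e, 0, D.e_ne⟩⟩
  have hB : Cardinal.mk (T →₀ V) = Cardinal.mk T := by
    rw [Cardinal.mk_finsupp_of_infinite, max_eq_left D.card]
  have hJ : Cardinal.mk (V × (T →₀ V) × (T →₀ V)) ≤ Cardinal.mk T := by
    simp only [Cardinal.mk_prod, Cardinal.lift_id, hB, Cardinal.mul_eq_self D.inf]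
    calc _ ≤ Cardinal.mk T * Cardinal.mk T := by gcongr; exact D.card
      _ = _ := Cardinal.mul_eq_self D.inf
  obtain ⟨s, hs, hsat⟩ := exists_closed (Cardinal.mk T) D.inf hJ D.Good
    (fun j t => (j.1 ∈ D.A → j.1 ≠ 0 → ∃ p ∈ t, p.2 j.1 = j.2.2) ∧
      (j.1 ∈ D.A → j.1 ≠ 0 → j.2.2 ≠ 0 → ∃ p ∈ t, p.2 D.e = j.2.1 ∧ ∃ q ∈ t, q ≠ p ∧
        ∃ v ∈ D.A, D.σ q.1 v - D.σ p.1 v = j.1 ∧ q.2 v - p.2 v = j.2.2) ∧
      ((∀ u : U, j.1 ≠ u • D.e) → ∃ p ∈ t, ∃ q ∈ t, ∃ r ∈ t, ∃ o ∈ t,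
        p.2 D.e + q.2 D.e = r.2 D.e + o.2 D.e ∧ p.2 j.1 + q.2 j.1 ≠ r.2 j.1 + o.2 j.1))
    (by
      intro s h
      refine ⟨fun p hp => ?_, fun p hp q hq => ?_, fun p hp q hq => ?_,
        fun p hp q hq r hr => ?_⟩
      · obtain ⟨u, hu, h1, -⟩ := h p hp p hp p hp
        exact hu.supp p h1
      · obtain ⟨u, hu, h1, h2, -⟩ := h p hp q hq p hp
        exact hu.fst p h1 q h2
      · obtain ⟨u, hu, h1, h2, -⟩ := h p hp q hq p hp
        exact hu.two p h1 q h2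
      · obtain ⟨u, hu, h1, h2, h3⟩ := h p hp q hq r hr
        exact hu.three p h1 q h2 r h3)
    (by
      rintro j s t hst ⟨h1, h2, h3⟩
      refine ⟨fun a b => ?_, fun a b c => ?_, fun a => ?_⟩
      · obtain ⟨p, hp, h⟩ := h1 a b
        exact ⟨p, hst hp, h⟩
      · obtain ⟨p, hp, h, q, hq, h'⟩ := h2 a b c
        exact ⟨p, hst hp, h, q, hst hq, h'⟩
      · obtain ⟨p, hp, q, hq, r, hr, o, ho, h⟩ := h3 a
        exact ⟨p, hst hp, q, hst hq, r, hst hr, o, hst ho, h⟩)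
    (by
      intro s hs hsm j
      obtain ⟨t1, ht1, h1⟩ := D.cov hs hsm j.1 j.2.2
      have sm1 := small_ext D.inf hsm ht1.2.1
      obtain ⟨t2, ht2, h2⟩ := D.slope ht1.2.2 sm1 j.1 j.2.1 j.2.2
      have sm2 := small_ext D.inf sm1 ht2.2.1
      obtain ⟨t3, ht3, h3⟩ := D.gen ht2.2.2 sm2 j.1
      have h := (ht1.trans ht2).trans ht3
      refine ⟨t3, h.1, h.2.1, h.2.2, fun a b => ?_, fun a b c => ?_, h3⟩
      · obtain ⟨p, hp, h⟩ := h1 a b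
        exact ⟨p, ht3.1 (ht2.1 hp), h⟩
      · obtain ⟨p, hp, h, q, hq, h'⟩ := h2 a b c
        exact ⟨p, ht3.1 hp, h, q, ht3.1 hq, h'⟩)
  refine ⟨s, hs, fun x hx hx0 z => (hsat (x, 0, z)).1 hx hx0, fun p hp w hw hw0 m hm => ?_,
    fun x hx => (hsat (x, 0, 0)).2.2 hx⟩
  obtain ⟨p', hp', h, h'⟩ := (hsat (w, p.2 D.e, m)).2.1 hw hw0 hm
  have : p' = p := by
    by_contra hne
    exact D.e_ne (hs.two p' hp' p hp hne _ D.eA h)
  subst this
  exact h'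

end Pool.Agent.Lib.MP_0f105f_co
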