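import Mathlib
import Pool.Agent.Lib.MP_0f105f_co.KGreedy

/-!
The data for the greedy construction, from Hahn series.
-/

set_option autoImplicit false

namespace Pool.Agent.Lib.MP_0f105f_co

open Cardinal

section
variable {Γ U : Type} [AddCommGroup Γ] [LinearOrder Γ] [IsOrderedAddMonoid Γ] [Ring U]

/-- integer Hahn series, read with coefficients in `U` -/
noncomputable def hcast (Γ U : Type) [AddCommGroup Γ] [LinearOrder Γ] [IsOrderedAddMonoid Γ]
    [Ring U] : HahnSeries Γ ℤ →+* HahnSeries Γ U where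
  toFun x := x.map (Int.castRingHom U)
  map_one' := HahnSeries.map_one (Int.castRingHom U).toMonoidWithZeroHom
  map_mul' _ _ := HahnSeries.map_mul (Int.castRingHom U).toNonUnitalRingHom
  map_zero' := HahnSeries.map_zero (Int.castRingHom U).toMonoidWithZeroHom.toZeroHom
  map_add' _ _ := HahnSeries.map_add (Int.castRingHom U).toAddMonoidHom

theorem hcast_coeff (x : HahnSeries Γ ℤ) (g : Γ) :
    (hcast Γ U x).coeff g = ((x.coeff g : ℤ) : U) := rfl

theorem unit_diff {a b : Γ} (h : a ≠ b) :
    IsUnit ((HahnSeries.single a 1 : HahnSeries Γ ℤ) - HahnSeries.single b 1) := by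
  have key : ∀ a b : Γ, a < b →
      IsUnit ((HahnSeries.single a 1 : HahnSeries Γ ℤ) - HahnSeries.single b 1) := by
    intro a b hab
    rw [HahnSeries.isUnit_iff, HahnSeries.leadingCoeff_sub, HahnSeries.leadingCoeff_of_single]
    · exact isUnit_one
    · rw [HahnSeries.orderTop_single one_ne_zero, HahnSeries.orderTop_single one_ne_zero]
      exact WithTop.coe_lt_coe.mpr hab
  rcases lt_or_gt_of_ne h with h | h
  · exact key a b h
  · have := (key b a h).neg
    rwa [neg_sub] at this

theorem hsmul_eq (u : U) (x : HahnSeries Γ U) : u • x = HahnSeries.single 0 u * x := by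
  rw [HahnSeries.single_zero_mul_eq_smul]

/-- a subring containing the constants, as a left submodule -/
def subMod (W : Subalgebra ℤ (HahnSeries Γ U)) (hW : ∀ u : U, HahnSeries.single 0 u ∈ W) :
    Submodule U (HahnSeries Γ U) where
  carrier := W
  add_mem' := W.add_mem
  zero_mem' := W.zero_mem
  smul_mem' u x hx := by
    rw [hsmul_eq]
    exact W.mul_mem (hW u) hx

/-- right multiplication -/
noncomputable def rmul (W : Subalgebra ℤ (HahnSeries Γ U)) (hW : ∀ u : U, HahnSeries.single 0 u ∈ W)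
    (c : HahnSeries Γ U) (hc : c ∈ W) : subMod W hW →ₗ[U] subMod W hW where
  toFun v := ⟨v.1 * c, W.mul_mem v.2 hc⟩
  map_add' v w := Subtype.ext (add_mul _ _ _)
  map_smul' u v := Subtype.ext (by
    show (u • v.1) * c = u • (v.1 * c)
    rw [hsmul_eq, hsmul_eq, mul_assoc])

theorem exists_dat_aux {R T : Type} [Ring R] [Nontrivial U] (f : R →+* U)
    (hf : ∀ r, r ≠ 0 → IsUnit (f r)) (γ : T → Γ) (hγ : Function.Injective γ)
    (hT : ℵ₀ ≤ Cardinal.mk T) (hU : Cardinal.mk U ≤ Cardinal.mk T) :
    ∃ (V : Type) (_ : AddCommGroup V) (_ : Module U V) (D : Dat U V T),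
      (∀ r, ∀ v ∈ D.A, f r • v ∈ D.A) ∧ ∀ u : U, u • D.e ∈ D.A → ∃ r, f r = u := by
  classical
  let S : T → HahnSeries Γ ℤ := fun t => HahnSeries.single (γ t) 1
  let Q : T × T → HahnSeries Γ ℤ := fun p => Ring.inverse (S p.1 - S p.2)
  let gens : Set (HahnSeries Γ U) := (Set.range (fun u : U => HahnSeries.single 0 u) ∪
    Set.range (fun t => hcast Γ U (S t))) ∪ Set.range (fun p => hcast Γ U (Q p))
  let W := Algebra.adjoin ℤ gens
  have hW : ∀ u : U, HahnSeries.single 0 u ∈ W := fun u =>
    Algebra.subset_adjoin (Or.inl (Or.inl ⟨u, rfl⟩))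
  have hS : ∀ t, hcast Γ U (S t) ∈ W := fun t => Algebra.subset_adjoin (Or.inl (Or.inr ⟨t, rfl⟩))
  have hQ : ∀ p, hcast Γ U (Q p) ∈ W := fun p => Algebra.subset_adjoin (Or.inr ⟨p, rfl⟩)
  let A : AddSubgroup (subMod W hW) :=
    { carrier := {v | ∀ g, v.1.coeff g ∈ f.range}
      add_mem' := fun {v w} hv hw g => f.range.add_mem (hv g) (hw g)
      zero_mem' := fun g => f.range.zero_mem
      neg_mem' := fun {v} hv g => f.range.neg_mem (hv g) }
  have hA : ∀ z : HahnSeries Γ ℤ, ∀ hz : hcast Γ U z ∈ W, ∀ v ∈ A, rmul W hW _ hz v ∈ A := by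
    intro z hz v hv g
    show (v.1 * hcast Γ U z).coeff g ∈ f.range
    rw [HahnSeries.coeff_mul]
    exact Subring.sum_mem _ fun ij _ => f.range.mul_mem (hv _) (by
      rw [hcast_coeff]; exact intCast_mem _ _)
  have hcard : Cardinal.mk (subMod W hW) ≤ Cardinal.mk T := by
    have h1 : Cardinal.mk gens ≤ Cardinal.mk T := by
      have a1 : Cardinal.mk (Set.range (fun u : U => (HahnSeries.single 0 u : HahnSeries Γ U))) ≤
        Cardinal.mk T := Cardinal.mk_range_le.trans hU
      have a2 : Cardinal.mk (Set.range (fun t => hcast Γ U (S t))) ≤ Cardinal.mk T :=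
        Cardinal.mk_range_le
      have a3 : Cardinal.mk (Set.range (fun p => hcast Γ U (Q p))) ≤ Cardinal.mk T :=
        Cardinal.mk_range_le.trans (by simp [Cardinal.mul_eq_self hT])
      refine (Cardinal.mk_union_le _ _).trans (Cardinal.add_le_of_le hT ?_ a3)
      exact (Cardinal.mk_union_le _ _).trans (Cardinal.add_le_of_le hT a1 a2)
    refine (Algebra.cardinalMk_adjoin_le ℤ gens).trans ?_
    exact sup_le (sup_le (by simpa using hT) h1) hT
  refine ⟨subMod W hW, inferInstance, inferInstance,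
    { A := A
      σ := fun t => rmul W hW _ (hS t)
      τ := fun s t => rmul W hW _ (hQ (s, t))
      e := ⟨1, W.one_mem⟩
      σA := fun t => hA _ _
      τA := fun s t => hA _ _
      inv1 := ?_
      inv2 := ?_
      coord := ?_
      eA := ?_
      e_ne := ?_
      card := hcard
      inf := hT }, ?_, ?_⟩
  · intro s t hst v
    apply Subtype.ext
    show v.1 * hcast Γ U (Q (s, t)) * hcast Γ U (S s) - v.1 * hcast Γ U (Q (s, t)) *
      hcast Γ U (S t) = v.1
    rw [← mul_sub, mul_assoc, ← map_sub, ← map_mul, Ring.inverse_mul_cancel _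
      (unit_diff (hγ.ne hst)), map_one, mul_one]
  · intro s t hst v
    apply Subtype.ext
    show (v.1 * hcast Γ U (S s) - v.1 * hcast Γ U (S t)) * hcast Γ U (Q (s, t)) = v.1
    rw [← mul_sub, mul_assoc, ← map_sub, ← map_mul, Ring.mul_inverse_cancel _
      (unit_diff (hγ.ne hst)), map_one, mul_one]
  · intro x hx hx0
    have : ∃ g, x.1.coeff g ≠ 0 := by
      by_contra h
      push Not at h
      exact hx0 (Subtype.ext (HahnSeries.ext (funext h)))
    obtain ⟨g, hg⟩ := this
    obtain ⟨r, hr⟩ := hx g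
    have hr0 : r ≠ 0 := by
      rintro rfl
      exact hg (by rw [← hr, map_zero])
    obtain ⟨w, hw⟩ := hf r hr0
    refine ⟨{ toFun := fun v => v.1.coeff g * (↑w⁻¹ : U)
              map_add' := fun v v' => by
                show (v.1.coeff g + v'.1.coeff g) * _ = _
                rw [add_mul]
              map_smul' := fun u v => by
                show (u * v.1.coeff g) * _ = u * _
                rw [mul_assoc] }, ?_, ?_⟩
    · show x.1.coeff g * (↑w⁻¹ : U) = 1
      rw [← hr, ← hw, Units.mul_inv]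
    · intro y hy
      obtain ⟨r', hr'⟩ := hy g
      show y.1.coeff g * (↑w⁻¹ : U) = 0 ∨ IsUnit (y.1.coeff g * (↑w⁻¹ : U))
      rw [← hr']
      by_cases h0 : r' = 0
      · left; rw [h0, map_zero, zero_mul]
      · right; exact (hf r' h0).mul (Units.isUnit _)
  · intro g
    show (1 : HahnSeries Γ U).coeff g ∈ f.range
    rw [HahnSeries.coeff_one]
    split_ifs
    · exact f.range.one_mem
    · exact f.range.zero_mem
  · intro h
    exact one_ne_zero (congrArg Subtype.val h)
  · intro r v hv g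
    exact f.range.mul_mem ⟨r, rfl⟩ (hv g)
  · intro u hu
    obtain ⟨r, hr⟩ := hu 0
    refine ⟨r, hr.trans ?_⟩
    show u * (1 : HahnSeries Γ U).coeff 0 = u
    simp

end

theorem exists_dat {R U : Type} [Ring R] [Ring U] [Nontrivial U] (f : R →+* U)
    (hf : ∀ r, r ≠ 0 → IsUnit (f r)) :
    ∃ (T V : Type) (_ : AddCommGroup V) (_ : Module U V) (D : Dat U V T),
      (∀ r, ∀ v ∈ D.A, f r • v ∈ D.A) ∧ ∀ u : U, u • D.e ∈ D.A → ∃ r, f r = u := by
  classical
  let _ : LinearOrder (U ⊕ ℕ) := linearOrderOfSTO WellOrderingRel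
  refine ⟨U ⊕ ℕ, exists_dat_aux (Γ := Lex ((U ⊕ ℕ) →₀ ℤ)) f hf
    (fun t => toLex (Finsupp.single t 1)) ?_ ?_ ?_⟩
  · intro s t h
    exact Finsupp.single_left_injective one_ne_zero (toLex.injective h)
  · exact Cardinal.aleph0_le_mk _
  · exact Cardinal.mk_le_of_injective Sum.inl_injective

end Pool.Agent.Lib.MP_0f105f_co
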