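import Mathlib
import Pool.Agent.Lib.MP_0f105f_co.KDefs
import Pool.Agent.Lib.MP_0f105f_co.KHahn
import Pool.Agent.Lib.MP_0f105f_co.KCoord
import Pool.Agent.Lib.MP_0f105f_co.KGeom

/-!
Which rings are kernels of translation generalized quadrangles.
-/

set_option autoImplicit false

namespace Pool.Agent.Lib.MP_0f105f_co

open Pool.Agent.Lib.MP_0f105f_co.Geometry

theorem necessary {R : Type} [Ring R] {S : Geometry} {x y : S.Point} {G : Subgroup S.Aut}
    (hT : S.IsTGQ x G) (hy : ¬ S.Collinear x y) (h : IsoToRing R (S.kernel x y G)) :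
    ∃ (U : Type) (_ : Ring U) (f : R →+* U), Nontrivial U ∧ ∀ r, r ≠ 0 → IsUnit (f r) := by
  obtain ⟨ρ, hinj, hr, h1, hadd, hmul⟩ := h
  choose m w hF using fun L : {L // S.inc x L} => hT.gq.exists_flag hy L.2
  letI := hT.commGroup
  have K := hT.absK hy m w hF
  have P := fun r => (hT.mem_kernel_iff hy m w hF (ρ r)).mp (hr ▸ ⟨r, rfl⟩)
  obtain ⟨L, M, -, hLM, -⟩ := K.three
  let C : AddSubgroup (Additive G) := pointSub S G (w L) ⊓ pointSub S G (w M)
  let res : R → Module.End ℤ C := fun r =>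
    (((MonoidHom.toAdditive (ρ r)).comp C.subtype).codRestrict C
      (fun c => AddSubgroup.mem_inf.mpr ⟨(P r).h2 L _ c.2.1, (P r).h2 M _ c.2.2⟩)).toIntLinearMap
  have hres : ∀ r c, ((res r c : C) : Additive G) = Additive.ofMul (ρ r (c.1.toMul)) :=
    fun _ _ => rfl
  have h0 : ∀ g, ρ 0 g = 1 := by
    intro g
    have := hadd 0 0 g
    rw [add_zero] at this
    exact left_eq_mul.mp this
  refine ⟨Module.End ℤ C, inferInstance,
    { toFun := res
      map_one' := ?_
      map_mul' := fun r s => ?_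
      map_zero' := ?_
      map_add' := fun r s => ?_ }, ?_, fun r hr0 => ?_⟩
  · ext c
    rw [hres, h1]; rfl
  · ext c
    rw [hres, hmul]; rfl
  · ext c
    rw [hres, h0]; rfl
  · ext c
    rw [hres, hadd]; rfl
  · obtain ⟨c, i1, i2, i3⟩ := K.ntC hLM
    have : Nontrivial C := ⟨⟨⟨c, i1, i2⟩, 0, fun e => i3 (congrArg Subtype.val e)⟩⟩
    infer_instance
  · have hne : MonoidHom.toAdditive (ρ r) ≠ 0 := by
      intro e
      apply hr0
      apply hinj
      ext1 g
      rw [h0]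
      exact DFunLike.congr_fun e (Additive.ofMul g)
    obtain ⟨b, hb, hb0⟩ := K.ne_on (P r) hne M
    show IsUnit (res r)
    rw [Module.End.isUnit_iff]
    constructor
    · rw [injective_iff_map_eq_zero]
      intro c hc
      exact Subtype.ext (K.injC (P r) hLM hb hb0 c.2.1 c.2.2 (congrArg Subtype.val hc))
    · intro c'
      obtain ⟨c, i1, i2, i3⟩ := K.surjC (P r) hLM hb hb0 c'.2.1 c'.2.2
      exact ⟨⟨c, i1, i2⟩, Subtype.ext i3⟩

theorem sufficient {R U : Type} [Ring R] [Ring U] [Nontrivial U] (f : R →+* U)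
    (hf : ∀ r, r ≠ 0 → IsUnit (f r)) :
    ∃ (S : Geometry) (x : S.Point) (G : Subgroup S.Aut) (y : S.Point),
      S.IsTGQ x G ∧ ¬ S.Collinear x y ∧ IsoToRing R (S.kernel x y G) := by
  obtain ⟨T, V, _, _, D, hA, hE⟩ := exists_dat f hf
  obtain ⟨s, hs, hcov, hslope, hgen⟩ := D.exists_family
  let σ : s → D.A →+ D.A := fun p =>
    ((D.σ p.1.1).toAddMonoidHom.comp D.A.subtype).codRestrict D.A (fun v => D.σA _ _ v.2)
  let h : s → D.A →+ (T →₀ V) := fun p => p.1.2.toAddMonoidHom.comp D.A.subtype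
  have ne : ∀ {p q : s}, p ≠ q → p.1 ≠ q.1 := fun h e => h (Subtype.ext e)
  have ne1 : ∀ {p q : s}, p ≠ q → p.1.1 ≠ q.1.1 := fun {p q} h e =>
    ne h (hs.fst _ p.2 _ q.2 e)
  have ne0 : ∀ {v : D.A}, v ≠ 0 → v.1 ≠ 0 := fun h e => h (Subtype.ext e)
  let e : D.A := ⟨D.e, D.eA⟩
  have he : e ≠ 0 := fun h => D.e_ne (congrArg Subtype.val h)
  have F : Fam σ h :=
    { surj := fun p q hpq y => ⟨⟨D.τ p.1.1 q.1.1 y, D.τA _ _ _ y.2⟩,
        Subtype.ext (D.inv1 _ _ (ne1 hpq) y)⟩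
      inj := fun p q hpq v hv => by
        by_contra h0
        exact ne1 hpq (D.σ_inj (ne0 h0) (congrArg Subtype.val hv))
      two := fun p q hpq v hv => Subtype.ext (hs.two _ p.2 _ q.2 (ne hpq) v v.2 hv)
      three := fun p q r h1 h2 h3 u v w e1 e2 e3 => Subtype.ext
        (hs.three _ p.2 _ q.2 _ r.2 (ne h1) (ne h2) (ne h3) u u.2 v v.2 w w.2
          (congrArg Subtype.val e1) (congrArg Subtype.val e2) e3)
      cov := fun x hx z => by
        obtain ⟨p, hp, h1⟩ := hcov x x.2 (ne0 hx) z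
        exact ⟨⟨p, hp⟩, h1⟩
      slope := fun p w hw m hm => by
        obtain ⟨q, hq, h1, v, hv, h2, h3⟩ := hslope p.1 p.2 w w.2 (ne0 hw) m hm
        exact ⟨⟨q, hq⟩, fun e => h1 (congrArg Subtype.val e), ⟨v, hv⟩, Subtype.ext h2, h3⟩
      ntA := ⟨e, he⟩
      ntB := by
        obtain ⟨n0, -⟩ := exists_notMem_small (small_finite D.inf (Set.finite_empty (α := T)))
        exact ⟨Finsupp.single n0 D.e, by simpa using D.e_ne⟩ }
  let mA : R → D.A →+ D.A := fun r => AddMonoidHom.mk' (fun v => ⟨f r • v.1, hA r _ v.2⟩)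
    (fun a b => Subtype.ext (smul_add _ _ _))
  let mu : R → (D.A × D.A × (T →₀ V)) →+ (D.A × D.A × (T →₀ V)) := fun r =>
    AddMonoidHom.mk' (fun v => (mA r v.1, mA r v.2.1, f r • v.2.2)) (fun a b => by
      simp only [Prod.fst_add, Prod.snd_add, map_add, smul_add, Prod.mk_add_mk])
  have hσ : ∀ r p v, σ p (mA r v) = mA r (σ p v) := fun r p v =>
    Subtype.ext (map_smul (D.σ p.1.1) (f r) v.1)
  have hh : ∀ r p v, h p (mA r v) = f r • h p v := fun r p v => map_smul p.1.2 (f r) v.1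
  have Pm : ∀ r, Pres σ h (mu r) := by
    intro r
    constructor
    · rintro (_ | p) t ht
      · show mA r t.1 = 0
        rw [show t.1 = 0 from ht, map_zero]
      · show mA r t.2.1 - σ p (mA r t.1) = 0
        rw [hσ, ← map_sub, show t.2.1 - σ p t.1 = 0 from ht, map_zero]
    · rintro (_ | p) t - ht
      · show f r • t.2.2 = 0
        rw [show t.2.2 = 0 from ht, smul_zero]
      · show f r • t.2.2 - h p (mA r t.1) = 0
        rw [hh, ← smul_sub, show t.2.2 - h p t.1 = 0 from ht, smul_zero]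
  have a1 : ∀ v, mA 1 v = v := fun v => Subtype.ext (by
    show f 1 • v.1 = v.1
    rw [map_one, one_smul])
  have a2 : ∀ r r' v, mA (r + r') v = mA r v + mA r' v := fun r r' v => Subtype.ext (by
    show f (r + r') • v.1 = f r • v.1 + f r' • v.1
    rw [map_add, add_smul])
  have a3 : ∀ r r' v, mA (r * r') v = mA r (mA r' v) := fun r r' v => Subtype.ext (by
    show f (r * r') • v.1 = f r • f r' • v.1
    rw [map_mul, mul_smul])
  have m0 : ∀ r v, mu r v = (mA r v.1, mA r v.2.1, f r • v.2.2) := fun _ _ => rfl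
  have m1 : ∀ v, mu 1 v = v := fun v => by rw [m0, a1, a1, map_one, one_smul]
  have m2 : ∀ r r' v, mu (r + r') v = mu r v + mu r' v := fun r r' v => by
    rw [m0, m0, m0, a2, a2, map_add, add_smul]; rfl
  have m3 : ∀ r r' v, mu (r * r') v = mu r (mu r' v) := fun r r' v => by
    rw [m0, m0, m0, a3, a3, map_mul, mul_smul]
  refine ⟨geom (fpi (T →₀ V) σ) (fpsi h), .inf, _, .aff 0, F.kantor.isTGQ, not_col_inf_aff 0,
    fun r => trEnd _ _ (mu r), ?_, ?_, ?_, ?_, ?_⟩
  · intro r r' hr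
    have h1 := congrArg (fun v => (v.1 : V)) (DFunLike.congr_fun (trEnd_inj hr) (e, 0, 0))
    have h2 : f r • D.e = f r' • D.e := h1
    by_contra hne
    have h3 := hf _ (sub_ne_zero.mpr hne)
    apply D.e_ne
    apply h3.smul_left_cancel.mp
    rw [map_sub, sub_smul, h2, sub_self, smul_zero]
  · ext α
    constructor
    · rintro ⟨r, rfl⟩
      exact trEnd_mem_kernel _ (Pm r).h1 (Pm r).h2
    · intro hα
      obtain ⟨g, rfl⟩ := trEnd_surj α
      have P : Pres σ h g := ⟨(of_trEnd_mem_kernel g hα).1, (of_trEnd_mem_kernel g hα).2⟩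
      have : ∃ u : U, ((g (e, 0, 0)).1 : V) = u • D.e := by
        by_contra hcon
        push Not at hcon
        obtain ⟨p, hp, q, hq, r, hr, o, ho, h1, h2⟩ := hgen _ hcon
        exact h2 (P.par e ⟨p, hp⟩ ⟨q, hq⟩ ⟨r, hr⟩ ⟨o, ho⟩ h1)
      obtain ⟨u, hu⟩ := this
      obtain ⟨r, rfl⟩ := hE u (hu ▸ (g (e, 0, 0)).1.2)
      refine ⟨r, ?_⟩
      have P' : Pres σ h (g - mu r) :=
        ⟨fun L t ht => by
          rw [AddMonoidHom.sub_apply, map_sub, P.h1 L t ht, (Pm r).h1 L t ht, sub_zero],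
         fun L t ht ht' => by
          rw [AddMonoidHom.sub_apply, map_sub, P.h2 L t ht ht', (Pm r).h2 L t ht ht', sub_zero]⟩
      have h0 := P'.eq_zero F e he (Subtype.ext (sub_eq_zero.mpr hu))
      show trEnd _ _ (mu r) = _
      rw [sub_eq_zero.mp h0]
  · ext1 g
    obtain ⟨t, rfl⟩ := (trEquiv _ _).surjective g
    have := trEnd_apply (π := fpi (T →₀ V) σ) (ψ := fpsi h) (mu 1) t.toAdd
    rw [ofAdd_toAdd] at this
    show trEnd _ _ (mu 1) _ = _
    rw [this, m1]; rfl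
  · intro r r' g
    obtain ⟨t, rfl⟩ := (trEquiv _ _).surjective g
    have := fun r => trEnd_apply (π := fpi (T →₀ V) σ) (ψ := fpsi h) (mu r) t.toAdd
    rw [ofAdd_toAdd] at this
    show trEnd _ _ (mu (r + r')) _ = trEnd _ _ (mu r) _ * trEnd _ _ (mu r') _
    rw [this, this, this, ← map_mul, m2]; rfl
  · intro r r'
    ext1 g
    obtain ⟨t, rfl⟩ := (trEquiv _ _).surjective g
    have := fun r => trEnd_apply (π := fpi (T →₀ V) σ) (ψ := fpsi h) (mu r) t.toAdd
    rw [ofAdd_toAdd] at this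
    show trEnd _ _ (mu (r * r')) _ = trEnd _ _ (mu r) (trEnd _ _ (mu r') _)
    rw [this, this, trEnd_apply, m3]

end Pool.Agent.Lib.MP_0f105f_co
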