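import Mathlib
import Pool.Agent.Lib.MP_0f105f_co.KMain

/-!
The case `R = ℤ`: a translation generalized quadrangle whose kernel consists of the power maps,
and in which the squaring map is a nonzero element of the kernel without inverse.
-/

set_option autoImplicit false

namespace Pool.Agent.Lib.MP_0f105f_co

theorem nonunit_of_int {H : Type} [Group H] {k : Set (H →* H)} (h : IsoToRing ℤ k) :
    HasNonzeroNonunit k := by
  obtain ⟨ρ, hinj, rfl, h1, hadd, hmul⟩ := h
  have h0 : ∀ g, ρ 0 g = 1 := by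
    intro g
    have := hadd 0 0 g
    rw [add_zero] at this
    exact left_eq_mul.mp this
  refine ⟨ρ 2, ⟨2, rfl⟩, ?_, ?_⟩
  · by_contra hcon
    push Not at hcon
    have : ρ 2 = ρ 0 := MonoidHom.ext fun g => (hcon g).trans (h0 g).symm
    exact absurd (hinj this) (by norm_num)
  · rintro ⟨_, ⟨n, rfl⟩, h2, -⟩
    rw [← hmul, ← h1] at h2
    have := hinj h2
    omega

theorem nonlinear_of_kernelRings :
    ∃ (S : Geometry) (x : S.Point) (G : Subgroup S.Aut) (y : S.Point),
      S.IsTGQ x G ∧ ¬ S.Collinear x y ∧ HasNonzeroNonunit (S.kernel x y G) := by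
  obtain ⟨S, x, G, y, h1, h2, h3⟩ := sufficient (Int.castRingHom ℚ)
    (fun r hr => IsUnit.mk0 _ (by simpa using hr))
  exact ⟨S, x, G, y, h1, h2, nonunit_of_int h3⟩

end Pool.Agent.Lib.MP_0f105f_co
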